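import Pool.Agent.TH850.UR.ClaimA

/-! # The mean square of the linear statistic of all zeros -/

set_option autoImplicit false

namespace Pool.Agent.K4H58.SC

open Complex Filter Topology MeasureTheory Set
open scoped ComplexConjugate
open Pool.Agent.TH850.NR Pool.Agent.TH850.UR
open H370 (zz hh mult Zf zset AA AA_eq hh_eq zz_refl mult_refl sum_refl mem_Zf good_zeta GoodL pterm)

theorem claimA2 : ∃ C6 : ℝ, 0 < C6 ∧ ∀ J : ℕ, 1 ≤ J → ∀ ε : ℝ, 0 < ε →
    ∃ T0 : ℝ, 10 ≤ T0 ∧ ∀ T : ℝ, T0 ≤ T → ∀ l : ℝ, Real.log T ≤ l → l ≤ 21 / 20 * Real.log T →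
      ∃ U1 U2 : ℝ, T ≤ U1 ∧ U1 ≤ T + 1 ∧ 2 * T - 1 ≤ U2 ∧
      U2 ≤ 2 * T ∧ T + Real.log T ≤ 2 * T - Real.log T ∧
      ∫ t in (T + Real.log T)..(2 * T - Real.log T),
        (2 * (HT J l U1 U2 t).re - Real.log T / l * cc J) ^ 2 ≤ (C6 / J + ε) * T := by
  obtain ⟨a, ha, C1, T1, hC1, hT1, hEF⟩ := H370.explicit_formula good_zeta
  obtain ⟨C2, hC2, hcoef⟩ := coef
  refine ⟨48 * C2, by positivity, fun J hJ ε' hε' => ?_⟩
  obtain ⟨ε, hε, hεε⟩ : ∃ ε : ℝ, 0 < ε ∧ 2 * ε ^ 2 = ε' := by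
    refine ⟨Real.sqrt (ε' / 2), Real.sqrt_pos.2 (by positivity), ?_⟩
    rw [Real.sq_sqrt (by positivity)]
    ring
  have hJ' : (0 : ℝ) < J := by exact_mod_cast hJ
  have hpi := Real.pi_pos
  set ζ2 : ℝ := ∑' n : ℕ, 1 / (n : ℝ) ^ 2 with hζ2
  have hζ0 : 0 ≤ ζ2 := tsum_nonneg fun n => by positivity
  set c0 : ℝ := 1 / Real.sqrt (2 * Real.pi) with hc0
  have hs1 : 1 ≤ Real.sqrt (2 * Real.pi) := by
    rw [Real.one_le_sqrt]; linarith [Real.pi_gt_three]
  have hc00 : 0 < c0 := by positivity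
  have hc01 : c0 ≤ 1 := by rw [hc0, div_le_one (by positivity)]; exact hs1
  have hccn := cc_nonneg J
  have hlog := Real.tendsto_log_atTop
  -- the truncation error
  set EE : ℝ → ℝ := fun L => 2 * ζ2 * (Real.exp (4 + 2 * L) * Real.exp (-(L / 5) ^ 2 / 4)) with hEE
  have hE0 : Tendsto EE atTop (𝓝 0) := by
    have h1 : Tendsto (fun L : ℝ => 4 + 2 * L + -(L / 5) ^ 2 / 4) atTop atBot := by
      have h2 : Tendsto (fun L : ℝ => L * (L / 100 - 2)) atTop atTop := by
        apply Tendsto.atTop_mul_atTop₀ tendsto_id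
        exact tendsto_atTop_add_const_right _ _ (tendsto_id.atTop_div_const (by norm_num))
      have h3 := (tendsto_neg_atTop_atBot.comp h2)
      have h4 := tendsto_atBot_add_const_left _ 4 h3
      refine h4.congr fun L => ?_
      simp only [Function.comp_apply]
      ring
    have h2 := (Real.tendsto_exp_atBot.comp h1).const_mul (2 * ζ2)
    rw [mul_zero] at h2
    refine h2.congr fun L => ?_
    simp only [Function.comp_apply, hEE]
    rw [← Real.exp_add]
  have hev1 : ∀ᶠ T : ℝ in atTop, 2 * (cc J * C1 / Real.log T + EE (Real.log T)) ≤ ε / 2 := by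
    have h1 : Tendsto (fun T : ℝ => 2 * (cc J * C1 / Real.log T + EE (Real.log T))) atTop
        (𝓝 (2 * (0 + 0))) :=
      ((tendsto_const_nhds.div_atTop hlog).add (hE0.comp hlog)).const_mul 2
    rw [add_zero, mul_zero] at h1
    exact h1.eventually_le_const (by positivity)
  have hev2 : ∃ l0 : ℝ, ∀ l : ℝ, l0 ≤ l → |2 * c0 * (l * gg J l 1) - cc J| ≤ ε / 2 := by
    have h1 := ((G_lim J).const_mul (2 * c0)).sub_const (cc J)
    have h2 : 2 * c0 * (cc J * (Real.sqrt (2 * Real.pi) / 2)) - cc J = 0 := by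
      rw [hc0]; field_simp; ring
    rw [h2] at h1
    have h3 := h1.abs
    rw [abs_zero] at h3
    exact eventually_atTop.1 (h3.eventually_le_const (by positivity))
  obtain ⟨l0, hl0'⟩ := hev2
  have hev3 : ∀ᶠ T : ℝ in atTop, 8 * (1 + Real.log T) ≤ T ^ (1 / 4 : ℝ) := by
    have h1 : (fun T : ℝ => 8 * (1 + Real.log T)) =o[atTop] fun T : ℝ => T ^ (1 / 4 : ℝ) := by
      apply Asymptotics.IsLittleO.const_mul_left
      refine Asymptotics.IsLittleO.add ?_ (isLittleO_log_rpow_atTop (by norm_num))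
      rw [Asymptotics.isLittleO_const_left]
      right
      refine tendsto_norm_atTop_atTop.comp (tendsto_rpow_atTop (by norm_num))
    have h2 := h1.bound (c := 1) one_pos
    filter_upwards [h2, eventually_ge_atTop 1] with T hT hT1
    rw [one_mul, Real.norm_of_nonneg (Real.rpow_nonneg (by linarith) _)] at hT
    exact (le_abs_self _).trans hT
  have hev4 : ∀ᶠ T : ℝ in atTop, 2 * Real.log T ≤ T := by
    have h1 : (fun T : ℝ => 2 * Real.log T) =o[atTop] fun T : ℝ => T :=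
      Asymptotics.IsLittleO.const_mul_left Real.isLittleO_log_id_atTop _
    have h2 := h1.bound (c := 1) one_pos
    filter_upwards [h2, eventually_ge_atTop 1] with T hT hT1
    rw [one_mul, Real.norm_of_nonneg (by linarith : (0 : ℝ) ≤ T)] at hT
    exact (le_abs_self _).trans hT
  have hev5 : ∀ᶠ T : ℝ in atTop, max l0 (cc J ^ 2 * J) ≤ Real.log T :=
    hlog.eventually_ge_atTop _
  obtain ⟨T2, hT2⟩ := (hev1.and (hev3.and (hev4.and hev5))).exists_forall_of_atTop
  refine ⟨max T1 T2, hT1.trans (le_max_left _ _), fun T hT l hlL hlL2 => ?_⟩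
  have hTT1 : T1 ≤ T := (le_max_left _ _).trans hT
  obtain ⟨g1, g3, g4, g5⟩ := hT2 T ((le_max_right _ _).trans hT)
  obtain ⟨U1, U2, hU1, hU2, hU3, hU4, hef⟩ := hEF T hTT1
  have hT10 : 10 ≤ T := hT1.trans hTT1
  have hT0 : 0 < T := by linarith
  have hL0 : 0 < Real.log T := Real.log_pos (by linarith)
  set L := Real.log T with hL
  have hl0 : 0 < l := by linarith
  have g2 := hl0' l (((le_max_left _ _).trans g5).trans hlL)
  have g5' : cc J ^ 2 * J ≤ l := ((le_max_right _ _).trans g5).trans hlL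
  set lam := L / l with hlam
  have hlam0 : 0 < lam := by positivity
  have hlam1 : lam ≤ 1 := by rw [hlam, div_le_one hl0]; exact hlL
  have hLlam : L = lam * l := by rw [hlam]; field_simp
  set X : ℕ := ⌊T ^ (3 / 4 : ℝ)⌋₊ with hX
  have hXle : (X : ℝ) ≤ T ^ (3 / 4 : ℝ) := Nat.floor_le (by positivity)
  have hXlog : 3 / 4 * L ≤ Real.log (X + 1) := by
    rw [hL, ← Real.log_rpow hT0]
    exact Real.log_le_log (by positivity) (Nat.lt_floor_add_one _).le
  have hX1 : (1 : ℝ) ≤ X := by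
    have h1 : 1 ≤ T ^ (3 / 4 : ℝ) := Real.one_le_rpow (by linarith) (by norm_num)
    exact_mod_cast (Nat.one_le_floor_iff _).2 h1
  have hXlog2 : Real.log X ≤ L := by
    apply Real.log_le_log (by linarith)
    refine hXle.trans ?_
    calc T ^ (3 / 4 : ℝ) ≤ T ^ (1 : ℝ) :=
          Real.rpow_le_rpow_of_exponent_le (by linarith) (by norm_num)
      _ = T := Real.rpow_one T
  have hXT : 8 * X * (1 + Real.log X) ≤ T := by
    calc 8 * X * (1 + Real.log X) ≤ 8 * T ^ (3 / 4 : ℝ) * (1 + L) := by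
          have : 0 ≤ Real.log X := Real.log_nonneg hX1
          gcongr
      _ = T ^ (3 / 4 : ℝ) * (8 * (1 + L)) := by ring
      _ ≤ T ^ (3 / 4 : ℝ) * T ^ (1 / 4 : ℝ) := by gcongr
      _ = T := by
          rw [← Real.rpow_add hT0]; norm_num
  have hX0 : 0 ≤ 8 * X * (1 + Real.log X) := by
    have : 0 ≤ Real.log X := Real.log_nonneg hX1
    positivity
  refine ⟨U1, U2, hU1, hU2, hU3, hU4, by linarith, ?_⟩
  have hU : 1 ≤ U1 := by linarith
  -- the pointwise estimate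
  have hpt : ∀ t ∈ Icc (T + L) (2 * T - L),
      |2 * (HT J l U1 U2 t).re - lam * cc J| ≤ ε + 2 * ‖DD a J l X t‖ := by
    intro t ht
    have h1 := H_est (a := a) J l U1 U2 t L C1 (EE L) X hU hl0.le (by
      intro u hu0 hu1
      have h2 := hef u t hu0 (by linarith) ht.1 ht.2
      have h3 := H370.PP_trunc ha u t (L / 5) X (by positivity) (by linarith)
      have h4 : Real.exp (4 + 2 * u) ≤ Real.exp (4 + 2 * L) := Real.exp_le_exp.2 (by linarith)
      have e1 : AA riemannZeta U1 U2 u t - (c0 : ℂ) *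
          (L * cexp (I * u * t) * Real.exp (-u ^ 2 / 2) - ∑ n ∈ Finset.Icc 1 X, pterm a u t n) =
          (AA riemannZeta U1 U2 u t - (c0 : ℂ) *
            (L * cexp (I * u * t) * Real.exp (-u ^ 2 / 2) - H370.PP a u t)) -
          (c0 : ℂ) * (H370.PP a u t - ∑ n ∈ Finset.Icc 1 X, pterm a u t n) := by ring
      rw [e1]
      refine (norm_sub_le _ _).trans (add_le_add h2 ?_)
      rw [norm_mul, Complex.norm_real, Real.norm_of_nonneg hc00.le]
      calc c0 * ‖H370.PP a u t - ∑ n ∈ Finset.Icc 1 X, pterm a u t n‖ ≤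
          1 * (2 * ζ2 * (Real.exp (4 + 2 * u) * Real.exp (-(L / 5) ^ 2 / 4))) := by
            apply mul_le_mul hc01 h3 (norm_nonneg _) zero_le_one
        _ ≤ EE L := by
            rw [one_mul]
            show 2 * ζ2 * (Real.exp (4 + 2 * u) * Real.exp (-(L / 5) ^ 2 / 4)) ≤
              2 * ζ2 * (Real.exp (4 + 2 * L) * Real.exp (-(L / 5) ^ 2 / 4))
            gcongr)
    have h2 := Err_le J hJ l C1 (EE L) hl0 hC1.le (by simp only [hEE]; positivity)
    have h2' : cc J * C1 / l ≤ cc J * C1 / L := by gcongr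
    set HH := HT J l U1 U2 t with hHH
    set D := DD a J l X t with hD
    have e1 : 2 * HH.re - lam * cc J = 2 * (HH - (c0 : ℂ) * (L * (gg J l 1 : ℂ) - D)).re +
        lam * (2 * c0 * (l * gg J l 1) - cc J) - 2 * c0 * D.re := by
      have e2 : ((c0 : ℂ) * (L * (gg J l 1 : ℂ) - D)).re = c0 * (L * gg J l 1 - D.re) := by
        rw [Complex.re_ofReal_mul, Complex.sub_re, ← Complex.ofReal_mul, Complex.ofReal_re]
      rw [Complex.sub_re, e2, hLlam]
      ring
    rw [e1]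
    have h3 : |2 * (HH - (c0 : ℂ) * (L * (gg J l 1 : ℂ) - D)).re| ≤ ε / 2 := by
      rw [abs_mul, abs_of_pos (by norm_num : (0 : ℝ) < 2)]
      have h4 := Complex.abs_re_le_norm (HH - (c0 : ℂ) * (L * (gg J l 1 : ℂ) - D))
      have h5 := h1.trans h2
      rw [← hc0] at h5
      linarith
    have h4 : |2 * c0 * D.re| ≤ 2 * ‖D‖ := by
      rw [abs_mul, abs_of_pos (by positivity : (0 : ℝ) < 2 * c0)]
      have h5 := Complex.abs_re_le_norm D
      have h6 := abs_nonneg D.re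
      have h7 := norm_nonneg D
      nlinarith
    have h5 : |lam * (2 * c0 * (l * gg J l 1) - cc J)| ≤ ε / 2 := by
      rw [abs_mul, abs_of_pos hlam0]
      calc lam * |2 * c0 * (l * gg J l 1) - cc J| ≤ 1 * (ε / 2) :=
            mul_le_mul hlam1 g2 (abs_nonneg _) zero_le_one
        _ = ε / 2 := one_mul _
    calc |2 * (HH - (c0 : ℂ) * (L * (gg J l 1 : ℂ) - D)).re +
          lam * (2 * c0 * (l * gg J l 1) - cc J) - 2 * c0 * D.re| ≤
        |2 * (HH - (c0 : ℂ) * (L * (gg J l 1 : ℂ) - D)).re| +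
          |lam * (2 * c0 * (l * gg J l 1) - cc J)| + |2 * c0 * D.re| := by
          refine (abs_sub _ _).trans (add_le_add (abs_add_le _ _) le_rfl)
      _ ≤ ε / 2 + ε / 2 + 2 * ‖D‖ := add_le_add (add_le_add h3 h5) h4
      _ = _ := by ring
  have hDc := DD_cont a J l X
  have hHc := HT_re_cont J l (U2 := U2) hU
  have hle : T + L ≤ 2 * T - L := by linarith
  have hpt2 : ∀ t ∈ Icc (T + L) (2 * T - L),
      (2 * (HT J l U1 U2 t).re - lam * cc J) ^ 2 ≤ 2 * ε ^ 2 + 8 * ‖DD a J l X t‖ ^ 2 := by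
    intro t ht
    have h1 := hpt t ht
    have h2 := norm_nonneg (DD a J l X t)
    rw [← sq_abs]
    calc |2 * (HT J l U1 U2 t).re - lam * cc J| ^ 2 ≤ (ε + 2 * ‖DD a J l X t‖) ^ 2 :=
          pow_le_pow_left₀ (abs_nonneg _) h1 2
      _ ≤ _ := by nlinarith [sq_nonneg (ε - 2 * ‖DD a J l X t‖)]
  have h1 : ∫ t in (T + L)..(2 * T - L), (2 * (HT J l U1 U2 t).re - lam * cc J) ^ 2 ≤
      ∫ t in (T + L)..(2 * T - L), (2 * ε ^ 2 + 8 * ‖DD a J l X t‖ ^ 2) :=
    intervalIntegral.integral_mono_on hle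
      (Continuous.intervalIntegrable (by fun_prop) _ _)
      (Continuous.intervalIntegrable (by fun_prop) _ _) hpt2
  have h2 : ∫ t in (T + L)..(2 * T - L), (2 * ε ^ 2 + 8 * ‖DD a J l X t‖ ^ 2) ≤
      ∫ t in T..(T + T), (2 * ε ^ 2 + 8 * ‖DD a J l X t‖ ^ 2) := by
    refine intervalIntegral.integral_mono_interval (by linarith) hle (by linarith)
      (Eventually.of_forall fun t => ?_) (Continuous.intervalIntegrable (by fun_prop) _ _)
    show 0 ≤ 2 * ε ^ 2 + 8 * ‖DD a J l X t‖ ^ 2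
    positivity
  have h3 : ∫ t in T..(T + T), (2 * ε ^ 2 + 8 * ‖DD a J l X t‖ ^ 2) =
      2 * ε ^ 2 * T + 8 * ∫ t in T..(T + T), ‖DD a J l X t‖ ^ 2 := by
    rw [intervalIntegral.integral_add (Continuous.intervalIntegrable (by fun_prop) _ _)
      (Continuous.intervalIntegrable (by fun_prop) _ _), intervalIntegral.integral_const,
      intervalIntegral.integral_const_mul, smul_eq_mul]
    ring
  have hcf := hcoef J hJ X l hl0
  have hB : ∑ n ∈ Finset.Icc 1 X, ArithmeticFunction.vonMangoldt n ^ 2 / n * gg J l n ^ 2 ≤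
      3 * C2 / J := by
    refine hcf.trans ?_
    have h4 : cc J ^ 2 / l ≤ 1 / J := by
      rw [div_le_div_iff₀ hl0 hJ']; linarith
    calc C2 * (cc J ^ 2 / l + 2 / J) ≤ C2 * (1 / J + 2 / J) := by gcongr
      _ = 3 * C2 / J := by ring
  have hms := DD_ms ha J l X T (T + T) _ (by linarith) hX0 hB
  have hms2 : ∫ t in T..(T + T), ‖DD a J l X t‖ ^ 2 ≤ 6 * C2 / J * T := by
    refine hms.trans ?_
    calc (T + T - T + 8 * X * (1 + Real.log X)) * (3 * C2 / J) ≤ (T + T) * (3 * C2 / J) := by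
          gcongr
          linarith
      _ = _ := by ring
  calc _ ≤ 2 * ε ^ 2 * T + 8 * ∫ t in T..(T + T), ‖DD a J l X t‖ ^ 2 := (h1.trans h2).trans_eq h3
    _ ≤ 2 * ε ^ 2 * T + 8 * (6 * C2 / J * T) := by gcongr
    _ = _ := by rw [hεε]; ring

end Pool.Agent.K4H58.SC
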