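import Pool.Agent.K4H58.SC.Sms
import Pool.Agent.K4H58.DR.Dsc
import Pool.Agent.K4H58.DR.Box

/-! # The sum rule for limiting densities, on RH -/

set_option autoImplicit false

namespace Pool.Agent.K4H58.SC

open Filter Topology MeasureTheory Set
open SG (ord NZ zmult)
open SP (RHs)
open Pool.Agent.TH850.NR (phi tri cc phi_nonneg phi_decay phi_le_one phi_cont cc_nonneg)
open Pool.Agent.R320.KL
open Pool.Agent.K4H58.KL (sc Win Win_card Win_pow_integrable momW mem_Win Fb Fb_le mem_Fb Nk_fib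
  integrable_sc ind_integrable int_sc Fb_cons int_cons cons_cont)
open Pool.Agent.K4H58.DR (XT LG wt_sum)

noncomputable section

/-- the tuples with one zero more -/
def Ix {m : ℕ} (T : ℝ) (x y : Fin m → ℝ) : Finset (Σ _ : ℕ, Σ _ : (Fin m → ℕ), ℕ) := by
  classical
  exact (Finset.Icc 1 (NZ T)).sigma fun n => (Fb T x y n).sigma fun f =>
    Finset.Icc 1 (NZ T) \ insert n (Finset.univ.image f)

/-- the position of the additional zero -/
def zx {m : ℕ} (T : ℝ) (i : Σ _ : ℕ, Σ _ : (Fin m → ℕ), ℕ) : ℝ := sc T (ord i.1) i.2.2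

lemma sum_Ix {m : ℕ} (T : ℝ) (x y : Fin m → ℝ) (ψ : ℝ → ℝ) : ∑ i ∈ Ix T x y, ψ (zx T i) =
    ∑ n ∈ Finset.Icc 1 (NZ T), ∑ f ∈ Fb T x y n,
      ∑ l ∈ Finset.Icc 1 (NZ T) \ insert n (Finset.univ.image f), ψ (sc T (ord n) l) := by
  classical
  unfold Ix zx
  rw [Finset.sum_sigma]
  refine Finset.sum_congr rfl fun n _ => ?_
  rw [Finset.sum_sigma]

lemma Scr_Ix {m : ℕ} (J : ℕ) (T : ℝ) (x y : Fin m → ℝ) :
    Scr J T x y = ∑ i ∈ Ix T x y, WJ J (zx T i) := (sum_Ix T x y (WJ J)).symm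

lemma Nk_Ix {m : ℕ} (T a b : ℝ) (x y : Fin m → ℝ) :
    (Nk T (Fin.cons a x : Fin (m + 1) → ℝ) (Fin.cons b y) : ℝ) =
      ∑ i ∈ Ix T x y, (Icc a b).indicator (1 : ℝ → ℝ) (zx T i) := by
  classical
  rw [sum_Ix, Nk_fib]
  push_cast
  refine Finset.sum_congr rfl fun n _ => ?_
  rw [Fb_cons]
  push_cast
  refine Finset.sum_congr rfl fun f _ => ?_
  have h1 : Cs T a b n \ Finset.univ.image f =
      (Finset.Icc 1 (NZ T) \ insert n (Finset.univ.image f)).filter
        (fun l => sc T (ord n) l ∈ Icc a b) := by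
    ext l
    unfold Cs
    simp only [Finset.mem_sdiff, Finset.mem_filter, Finset.mem_insert, not_or]
    unfold Pool.Agent.K4H58.KL.sc
    tauto
  rw [h1, Finset.card_filter]
  push_cast
  refine Finset.sum_congr rfl fun l _ => ?_
  by_cases h : sc T (ord n) l ∈ Icc a b
  · rw [if_pos h, indicator_of_mem h]
    rfl
  · rw [if_neg h, indicator_of_notMem h]

/-- the window bound -/
theorem win_bd (hRH : RHs) (m R : ℕ) : ∃ C : ℝ, 0 < C ∧ ∀ᶠ T : ℝ in atTop,
    ∀ x y : Fin m → ℝ, (∀ i, -(R : ℝ) ≤ x i ∧ y i ≤ R) → ∀ w : ℝ,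
      ∑ i ∈ Ix T x y, (Icc (-1 : ℝ) 1).indicator (1 : ℝ → ℝ) (zx T i - w) ≤ C * XT T := by
  classical
  obtain ⟨C2, hC2, hm2⟩ := momW hRH (R + 1) (2 * m + 1)
  obtain ⟨C3, hC3, hm3⟩ := momW hRH 2 1
  have hpi := Real.pi_pos
  refine ⟨C2 + C3, by positivity, ?_⟩
  filter_upwards [hm2, hm3, eventually_gt_atTop 1] with T k2 k3 hT x y hxy w
  have hk := κ_pos hT
  have hL := Real.log_pos hT
  obtain ⟨s, hs⟩ : ∃ s : ℝ, s = w / κ T := ⟨_, rfl⟩
  have hsw : s * κ T = w := by rw [hs]; field_simp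
  obtain ⟨W2, hW2⟩ : ∃ W2 : ℝ → ℝ, W2 = fun t => ((Win 2 T (t + s)).card : ℝ) := ⟨_, rfl⟩
  obtain ⟨χ, hχ⟩ : ∃ χ : ℕ → ℝ → ℝ, χ = fun n t =>
    (Icc (-(1 / 2 : ℝ)) (1 / 2)).indicator (1 : ℝ → ℝ) (sc T t n) := ⟨_, rfl⟩
  have hχi : ∀ n, Integrable (χ n) := fun n => by
    rw [hχ]
    exact integrable_sc hT n (ind_integrable measurableSet_Icc (by simp))
  have hχ1 : ∀ n, ∫ t, χ n t = 1 / κ T := by
    intro n
    rw [hχ]
    simp only
    rw [int_sc hT n, integral_indicator_one measurableSet_Icc, Real.volume_real_Icc_of_le (by norm_num)]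
    unfold κ
    field_simp
    norm_num
  have hχ0 : ∀ n t, 0 ≤ χ n t := fun n t => by
    rw [hχ]
    exact indicator_nonneg (fun _ _ => zero_le_one) _
  have hχle : ∀ n t, χ n t ≤ 1 := fun n t => by
    rw [hχ]
    exact indicator_le_self' (fun _ _ => zero_le_one) _
  have hW2i : Integrable W2 := by
    rw [hW2]
    exact (Pool.Agent.K4H58.KL.Win_integrable hT 2).comp_add_right s
  have hW20 : ∀ t, 0 ≤ W2 t := fun t => by rw [hW2]; positivity
  have hW2sq : Integrable fun t => W2 t ^ 2 := by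
    rw [hW2]
    exact (Win_pow_integrable hT 2 1).comp_add_right s
  have hW2m : ∫ t, W2 t ^ 2 ≤ C3 * T := by
    have h1 : ∫ t, W2 t ^ 2 = ∫ t, ((Win 2 T t).card : ℝ) ^ (1 + 1) := by
      rw [hW2]
      exact integral_add_right_eq_self (μ := volume) (fun t => ((Win 2 T t).card : ℝ) ^ (1 + 1)) s
    rw [h1]
    exact k3
  have hprod : ∀ n, Integrable fun t => χ n t * W2 t := fun n => by
    refine hW2i.mono' ((hχi n).1.mul hW2i.1) (Eventually.of_forall fun t => ?_)
    rw [Real.norm_of_nonneg (mul_nonneg (hχ0 n t) (hW20 t))]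
    exact mul_le_of_le_one_left (hW20 t) (hχle n t)
  -- one base zero
  have hone : ∀ n, ∑ l ∈ Finset.Icc 1 (NZ T),
      (Icc (-1 : ℝ) 1).indicator (1 : ℝ → ℝ) (sc T (ord n) l - w) ≤ κ T * ∫ t, χ n t * W2 t := by
    intro n
    obtain ⟨c, hc⟩ : ∃ c, c = ∑ l ∈ Finset.Icc 1 (NZ T),
      (Icc (-1 : ℝ) 1).indicator (1 : ℝ → ℝ) (sc T (ord n) l - w) := ⟨_, rfl⟩
    have h1 : ∀ t, χ n t * c ≤ χ n t * W2 t := by
      intro t
      by_cases h2 : sc T t n ∈ Icc (-(1 / 2 : ℝ)) (1 / 2)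
      · refine mul_le_mul_of_nonneg_left ?_ (hχ0 n t)
        rw [hc, hW2]
        simp only
        rw [Win_card]
        refine Finset.sum_le_sum fun l _ => ?_
        by_cases h3 : sc T (ord n) l - w ∈ Icc (-1 : ℝ) 1
        · rw [indicator_of_mem h3, indicator_of_mem]
          · rfl
          · have h4 : sc T (t + s) l = sc T (ord n) l - w + sc T t n := by
              have h5 : ∀ t l, sc T t l = (ord l - t) * κ T := fun t l => rfl
              rw [h5, h5, h5, ← hsw]
              ring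
            rw [h4]
            push_cast
            constructor <;> linarith [h2.1, h2.2, h3.1, h3.2]
        · rw [indicator_of_notMem h3]
          exact indicator_nonneg (fun _ _ => zero_le_one) _
      · have h3 : χ n t = 0 := by rw [hχ]; exact indicator_of_notMem h2 _
        rw [h3, zero_mul, zero_mul]
    have h2 : ∫ t, χ n t * c ≤ ∫ t, χ n t * W2 t := integral_mono ((hχi n).mul_const c) (hprod n) h1
    rw [integral_mul_const, hχ1] at h2
    rw [← hc]
    calc c = κ T * (1 / κ T * c) := by field_simp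
      _ ≤ _ := mul_le_mul_of_nonneg_left h2 hk.le
  have hGm := Gt_meas T x y
  have hGe : ∀ t, Gt T x y t = ∑ n ∈ Finset.Icc 1 (NZ T), ((Fb T x y n).card : ℝ) * χ n t := by
    intro t
    rw [hχ]
    rfl
  have hG2 : ∀ t, Gt T x y t ^ 2 ≤ ((Win (R + 1) T t).card : ℝ) ^ (2 * m + 1 + 1) := by
    intro t
    calc Gt T x y t ^ 2 ≤ (((Win (R + 1) T t).card : ℝ) ^ (m + 1)) ^ 2 :=
          pow_le_pow_left₀ (Gt_nonneg T x y t) (Gt_le hxy t) 2
      _ = _ := by rw [← pow_mul]; congr 1; ring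
  have hG2i : Integrable fun t => Gt T x y t ^ 2 := by
    refine (Win_pow_integrable hT (R + 1) (2 * m + 1)).mono' (hGm.pow_const 2).aestronglyMeasurable
      (Eventually.of_forall fun t => ?_)
    rw [Real.norm_of_nonneg (sq_nonneg _)]
    exact hG2 t
  have hG2m : ∫ t, Gt T x y t ^ 2 ≤ C2 * T :=
    (integral_mono hG2i (Win_pow_integrable hT (R + 1) (2 * m + 1)) hG2).trans k2
  calc ∑ i ∈ Ix T x y, (Icc (-1 : ℝ) 1).indicator (1 : ℝ → ℝ) (zx T i - w) =
      ∑ n ∈ Finset.Icc 1 (NZ T), ∑ f ∈ Fb T x y n,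
      ∑ l ∈ Finset.Icc 1 (NZ T) \ insert n (Finset.univ.image f),
        (Icc (-1 : ℝ) 1).indicator (1 : ℝ → ℝ) (sc T (ord n) l - w) :=
        sum_Ix T x y (fun v => (Icc (-1 : ℝ) 1).indicator (1 : ℝ → ℝ) (v - w))
    _ ≤ ∑ n ∈ Finset.Icc 1 (NZ T), ∑ f ∈ Fb T x y n, κ T * ∫ t, χ n t * W2 t := by
        refine Finset.sum_le_sum fun n _ => Finset.sum_le_sum fun f _ => ?_
        refine le_trans ?_ (hone n)
        exact Finset.sum_le_sum_of_subset_of_nonneg Finset.sdiff_subset fun l _ _ =>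
          indicator_nonneg (fun _ _ => zero_le_one) _
    _ = κ T * ∫ t, Gt T x y t * W2 t := by
        have h1 : ∀ t, Gt T x y t * W2 t = ∑ n ∈ Finset.Icc 1 (NZ T),
            ((Fb T x y n).card : ℝ) * (χ n t * W2 t) := by
          intro t
          rw [hGe, Finset.sum_mul]
          exact Finset.sum_congr rfl fun n _ => by ring
        simp_rw [h1]
        rw [integral_finsetSum _ fun n _ => (hprod n).const_mul _, Finset.mul_sum]
        refine Finset.sum_congr rfl fun n _ => ?_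
        rw [Finset.sum_const, nsmul_eq_mul, integral_const_mul]
        ring
    _ ≤ κ T * ∫ t, (Gt T x y t ^ 2 + W2 t ^ 2) := by
        refine mul_le_mul_of_nonneg_left ?_ hk.le
        refine integral_mono ?_ (hG2i.add hW2sq) fun t => ?_
        · have h1 : ∀ t, Gt T x y t * W2 t = ∑ n ∈ Finset.Icc 1 (NZ T),
              ((Fb T x y n).card : ℝ) * (χ n t * W2 t) := by
            intro t
            rw [hGe, Finset.sum_mul]
            exact Finset.sum_congr rfl fun n _ => by ring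
          simp_rw [h1]
          exact integrable_finsetSum _ fun n _ => (hprod n).const_mul _
        · show Gt T x y t * W2 t ≤ Gt T x y t ^ 2 + W2 t ^ 2
          nlinarith [sq_nonneg (Gt T x y t - W2 t), sq_nonneg (Gt T x y t), sq_nonneg (W2 t)]
    _ ≤ κ T * (C2 * T + C3 * T) := by
        rw [integral_add hG2i hW2sq]
        gcongr
    _ = (C2 + C3) * XT T := by
        unfold κ Pool.Agent.K4H58.DR.XT
        ring

lemma wi {lam : ℝ} (hl : 0 < lam) : Integrable fun y : ℝ => 1 / (1 + (lam * y) ^ 2) := by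
  have := integrable_inv_one_add_sq.comp_mul_left' hl.ne'
  refine this.congr (Eventually.of_forall fun y => ?_)
  show (1 + (lam * y) ^ 2)⁻¹ = 1 / (1 + (lam * y) ^ 2)
  rw [one_div]

lemma wm {lam : ℝ} (hl : 0 < lam) : ∫ y : ℝ, 1 / (1 + (lam * y) ^ 2) = Real.pi / lam := by
  have h1 := Measure.integral_comp_mul_left (fun x : ℝ => (1 + x ^ 2)⁻¹) lam
  rw [integral_univ_inv_one_add_sq, smul_eq_mul, abs_of_pos (by positivity)] at h1
  rw [div_eq_inv_mul, ← h1]
  refine integral_congr_ae (Eventually.of_forall fun y => ?_)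
  show 1 / (1 + (lam * y) ^ 2) = (1 + (lam * y) ^ 2)⁻¹
  rw [one_div]

/-- approximation by step functions -/
lemma step_approx {W : ℝ → ℝ} (hW : Continuous W) {D : ℝ} (hD : ∀ v, |W v| * (1 + v ^ 2) ≤ D) (A : ℕ)
    (hA : 1 ≤ A) : ∃ (N : ℕ) (a c : ℕ → ℝ), Monotone a ∧ ∀ v, |W v - ∑ j ∈ Finset.range N,
      c j * (Ico (a j) (a (j + 1))).indicator (1 : ℝ → ℝ) v| ≤
        (2 + 2 * D) / A ^ 2 * (1 / (1 + (1 / (A : ℝ) * v) ^ 2)) := by
  have hA0 : (0 : ℝ) < A := by exact_mod_cast hA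
  have hA1 : (1 : ℝ) ≤ A := by exact_mod_cast hA
  have hD0 : 0 ≤ D := by
    have := hD 0
    have h2 := abs_nonneg (W 0)
    nlinarith
  -- uniform continuity
  have huc : ∃ δ > 0, ∀ u ∈ Icc (-(A : ℝ)) A, ∀ v ∈ Icc (-(A : ℝ)) A, |u - v| < δ →
      |W u - W v| < 1 / A ^ 2 := by
    have h1 := isCompact_Icc.uniformContinuousOn_of_continuous (hW.continuousOn (s := Icc (-(A : ℝ)) A))
    rw [Metric.uniformContinuousOn_iff] at h1
    obtain ⟨δ, hδ, h2⟩ := h1 (1 / A ^ 2) (by positivity)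
    exact ⟨δ, hδ, fun u hu v hv huv => h2 u hu v hv huv⟩
  obtain ⟨δ, hδ, huc⟩ := huc
  obtain ⟨q, hq⟩ := exists_nat_gt (1 / δ)
  have hq0 : (0 : ℝ) < q := lt_trans (by positivity) hq
  have hqδ : 1 / (q : ℝ) < δ := by
    rw [one_div_lt hq0 hδ]
    exact hq
  obtain ⟨a, ha⟩ : ∃ a : ℕ → ℝ, a = fun j : ℕ => -(A : ℝ) + (j : ℝ) / q := ⟨_, rfl⟩
  have hmono : Monotone a := by
    intro i j hij
    rw [ha]
    have : (i : ℝ) ≤ j := by exact_mod_cast hij
    have h2 : (i : ℝ) / q ≤ j / q := by gcongr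
    simp only
    linarith
  refine ⟨2 * A * q, a, fun j => W (a j), hmono, fun v => ?_⟩
  have haN : a (2 * A * q) = A := by
    rw [ha]
    push_cast
    field_simp
    ring
  have ha0 : a 0 = -A := by rw [ha]; simp
  by_cases hv : v ∈ Ico (-(A : ℝ)) A
  · -- inside
    obtain ⟨j, hj⟩ : ∃ j : ℕ, j = ⌊(v + A) * q⌋₊ := ⟨_, rfl⟩
    have hvA : 0 ≤ (v + A) * q := mul_nonneg (by linarith [hv.1]) hq0.le
    have hj1 : (j : ℝ) ≤ (v + A) * q := by rw [hj]; exact Nat.floor_le hvA
    have hj2 : (v + A) * q < j + 1 := by rw [hj]; exact Nat.lt_floor_add_one _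
    have hjN : j < 2 * A * q := by
      have : (j : ℝ) < 2 * A * q := by
        have h3 : (v + A) * q < 2 * A * q := by
          have := hv.2
          have h4 : v + A < 2 * A := by linarith
          exact mul_lt_mul_of_pos_right h4 hq0
        linarith
      exact_mod_cast this
    have hcell : v ∈ Ico (a j) (a (j + 1)) := by
      rw [ha]
      push_cast
      constructor
      · have : (j : ℝ) / q ≤ v + A := by rw [div_le_iff₀ hq0]; exact hj1
        linarith
      · have : v + A < ((j : ℝ) + 1) / q := by rw [lt_div_iff₀ hq0]; exact hj2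
        linarith
    have hsum : ∑ j ∈ Finset.range (2 * A * q), W (a j) * (Ico (a j) (a (j + 1))).indicator
        (1 : ℝ → ℝ) v = W (a j) := by
      rw [Finset.sum_eq_single j]
      · rw [indicator_of_mem hcell]
        simp
      · intro i _ hij
        rw [indicator_of_notMem, mul_zero]
        intro h5
        rcases lt_or_gt_of_ne hij with h6 | h6
        · have h7 : a (i + 1) ≤ a j := hmono h6
          linarith [h5.2, hcell.1]
        · have h7 : a (j + 1) ≤ a i := hmono h6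
          linarith [h5.1, hcell.2]
      · intro h5
        exact absurd (Finset.mem_range.2 hjN) h5
    rw [hsum]
    have haj : a j ∈ Icc (-(A : ℝ)) A := by
      rw [← ha0, ← haN]
      exact ⟨hmono (Nat.zero_le j), hmono hjN.le⟩
    have h8 : |v - a j| < δ := by
      have h9 : a (j + 1) = a j + 1 / q := by
        rw [ha]
        push_cast
        ring
      rw [abs_of_nonneg (by linarith [hcell.1])]
      linarith [hcell.2]
    have h10 := huc v ⟨hv.1, hv.2.le⟩ (a j) haj h8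
    have h11 : (1 / (A : ℝ) * v) ^ 2 ≤ 1 := by
      have h12 : |1 / (A : ℝ) * v| ≤ 1 := by
        rw [abs_mul, abs_of_pos (by positivity : 0 < 1 / (A : ℝ)), one_div, inv_mul_le_iff₀ hA0, mul_one]
        exact abs_le.2 ⟨hv.1, hv.2.le⟩
      rw [← sq_abs]
      exact pow_le_one₀ (abs_nonneg _) h12
    calc |W v - W (a j)| ≤ 1 / A ^ 2 := h10.le
      _ ≤ (2 + 2 * D) / A ^ 2 * (1 / 2) := by
          rw [div_mul_div_comm, mul_one]
          rw [div_le_div_iff₀ (by positivity) (by positivity)]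
          nlinarith [sq_nonneg (A : ℝ), mul_nonneg hD0 (sq_nonneg (A : ℝ))]
      _ ≤ _ := by
          refine mul_le_mul_of_nonneg_left ?_ (by positivity)
          exact one_div_le_one_div_of_le (by positivity) (by linarith)
  · -- outside
    have hsum : ∑ j ∈ Finset.range (2 * A * q), W (a j) * (Ico (a j) (a (j + 1))).indicator
        (1 : ℝ → ℝ) v = 0 := by
      refine Finset.sum_eq_zero fun i hi => ?_
      rw [indicator_of_notMem, mul_zero]
      intro h5
      refine hv ⟨?_, ?_⟩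
      · rw [← ha0]
        exact (hmono (Nat.zero_le i)).trans h5.1
      · rw [← haN]
        exact lt_of_lt_of_le h5.2 (hmono (Finset.mem_range.1 hi))
    rw [hsum, sub_zero]
    have h1 : (A : ℝ) ^ 2 ≤ v ^ 2 := by
      rw [mem_Ico, not_and_or] at hv
      rcases hv with h2 | h2
      · push Not at h2
        nlinarith
      · push Not at h2
        nlinarith
    have h2 := hD v
    have h3 : 0 < 1 + v ^ 2 := by positivity
    have h4 : |W v| ≤ D / (1 + v ^ 2) := by rw [le_div_iff₀ h3]; exact h2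
    refine h4.trans ?_
    have h5 : (2 + 2 * D) / A ^ 2 * (1 / (1 + (1 / (A : ℝ) * v) ^ 2)) = (2 + 2 * D) / (A ^ 2 + v ^ 2) := by
      field_simp
    rw [h5, div_le_div_iff₀ h3 (by positivity)]
    nlinarith

lemma WJ_cont (J : ℕ) : Continuous (WJ J) := by
  unfold WJ
  exact intervalIntegral.continuous_parametric_intervalIntegral_of_continuous'
    (f := fun v s : ℝ => phi J (v + s)) ((phi_cont J).comp continuous_add) _ _

lemma WJ_decay (J : ℕ) (hJ : 1 ≤ J) (v : ℝ) : |WJ J v| * (1 + v ^ 2) ≤ 2 * (1 + 4 ^ J / (7 * (J : ℝ))) := by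
  have hJ' : (0 : ℝ) < J := by exact_mod_cast hJ
  rw [abs_of_nonneg (WJ_nonneg J v)]
  unfold WJ
  rw [← intervalIntegral.integral_mul_const]
  calc ∫ s in (-(1 / 2 : ℝ))..(1 / 2), phi J (v + s) * (1 + v ^ 2) ≤
      ∫ _s in (-(1 / 2 : ℝ))..(1 / 2), 2 * (1 + 4 ^ J / (7 * (J : ℝ))) := by
        refine intervalIntegral.integral_mono_on (by norm_num)
          (((phi_sh_cont J v).mul continuous_const).intervalIntegrable _ _)
          intervalIntegrable_const fun s hs => ?_
        have h1 := phi_decay J hJ (v + s)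
        have h2 := phi_le_one J hJ (v + s)
        have h3 := phi_nonneg J (v + s)
        have h4 : 1 + v ^ 2 ≤ 2 * (1 + (v + s) ^ 2) := by
          have h5 : s ^ 2 ≤ 1 / 4 := by nlinarith [hs.1, hs.2]
          nlinarith [sq_nonneg (v + 2 * s)]
        calc phi J (v + s) * (1 + v ^ 2) ≤ phi J (v + s) * (2 * (1 + (v + s) ^ 2)) :=
              mul_le_mul_of_nonneg_left h4 h3
          _ = 2 * (phi J (v + s) + phi J (v + s) * (v + s) ^ 2) := by ring
          _ ≤ _ := by linarith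
    _ = _ := by
        rw [intervalIntegral.integral_const]
        norm_num

/-- **the screened count converges** -/
theorem Scr_lim (hRH : RHs) {l : Filter ℝ} [l.NeBot] (hl : l ≤ atTop) {m : ℕ}
    {g : (Fin (m + 1) → ℝ) → ℝ} (hg : Continuous g) {M : ℝ} (hM : ∀ w, |g w| ≤ M)
    (h : LG l (m + 1) g) {x y : Fin m → ℝ} (hxy : ∀ i, x i ≤ y i) {W : ℝ → ℝ} (hW : Continuous W) {D : ℝ}
    (hD : ∀ v, |W v| * (1 + v ^ 2) ≤ D) :
    Tendsto (fun T => (∑ i ∈ Ix T x y, W (zx T i)) / XT T) l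
      (𝓝 (∫ v, W v * ∫ u in Icc x y, g (Fin.cons v u : Fin (m + 1) → ℝ))) := by
  classical
  have hpi := Real.pi_pos
  have hD0 : 0 ≤ D := by
    have := hD 0
    have h2 := abs_nonneg (W 0)
    nlinarith
  obtain ⟨H, hH⟩ : ∃ H : ℝ → ℝ, H = fun v => ∫ u in Icc x y, g (Fin.cons v u : Fin (m + 1) → ℝ) := ⟨_, rfl⟩
  have hHc : Continuous H := by
    rw [hH]
    refine continuous_parametric_integral_of_continuous
      (f := fun v u => g (Fin.cons v u : Fin (m + 1) → ℝ)) ?_ isCompact_Icc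
    exact hg.comp (cons_cont m)
  obtain ⟨V, hV⟩ : ∃ V : ℝ, V = (volume (Icc x y)).toReal := ⟨_, rfl⟩
  have hV0 : 0 ≤ V := by rw [hV]; exact ENNReal.toReal_nonneg
  have hM0 : 0 ≤ M := (abs_nonneg _).trans (hM 0)
  have hHb : ∀ v, |H v| ≤ M * V := by
    intro v
    rw [hH]
    have h1 := norm_setIntegral_le_of_norm_le_const (μ := volume) (s := Icc x y)
      (f := fun u : Fin m → ℝ => g (Fin.cons v u : Fin (m + 1) → ℝ)) (C := M)
      isCompact_Icc.measure_lt_top (fun u _ => hM _)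
    rw [Real.norm_eq_abs] at h1
    rw [hV]
    exact h1
  -- half-open intervals
  have hico : ∀ a b : ℝ, a ≤ b → Tendsto (fun T : ℝ => (∑ i ∈ Ix T x y,
      (Ico a b).indicator (1 : ℝ → ℝ) (zx T i)) / XT T) l (𝓝 (∫ v in a..b, H v)) := by
    intro a b hab
    have hc : ∀ a b : ℝ, a ≤ b → Tendsto (fun T : ℝ => (∑ i ∈ Ix T x y,
        (Icc a b).indicator (1 : ℝ → ℝ) (zx T i)) / XT T) l (𝓝 (∫ v in a..b, H v)) := by
      intro a b hab
      have h1 := h (Fin.cons a x : Fin (m + 1) → ℝ) (Fin.cons b y) (fun i => by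
        refine Fin.cases ?_ (fun j => ?_) i
        · simpa using hab
        · simpa using hxy j)
      rw [int_cons a b x y g hg, integral_Icc_eq_integral_Ioc, ← intervalIntegral.integral_of_le hab] at h1
      rw [hH]
      refine h1.congr fun T => ?_
      rw [Nk_Ix]
    have h1 := (hc a b hab).sub (hc b b le_rfl)
    rw [intervalIntegral.integral_same, sub_zero] at h1
    refine h1.congr fun T => ?_
    rw [← sub_div, ← Finset.sum_sub_distrib]
    congr 1
    refine Finset.sum_congr rfl fun i _ => ?_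
    obtain ⟨z, hz⟩ : ∃ z, z = zx T i := ⟨_, rfl⟩
    rw [← hz]
    by_cases c1 : z ∈ Icc a b
    · rw [indicator_of_mem c1]
      by_cases c2 : z = b
      · rw [c2, indicator_of_mem (show b ∈ Icc b b by simp), indicator_of_notMem (by simp)]
        simp
      · rw [indicator_of_notMem (fun h => c2 (le_antisymm h.2 h.1)),
          indicator_of_mem (show z ∈ Ico a b from ⟨c1.1, lt_of_le_of_ne c1.2 c2⟩)]
        simp
    · rw [indicator_of_notMem c1, indicator_of_notMem (fun h => c1 ⟨hab.trans h.1, h.2⟩),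
        indicator_of_notMem (fun h => c1 ⟨h.1, h.2.le⟩)]
      simp
  -- the bound for the sides
  obtain ⟨R, hR⟩ : ∃ R : ℕ, ∀ i, -(R : ℝ) ≤ x i ∧ y i ≤ R := by
    obtain ⟨R, hR⟩ := exists_nat_ge (∑ i, (|x i| + |y i|))
    refine ⟨R, fun i => ?_⟩
    have h1 : |x i| + |y i| ≤ ∑ i, (|x i| + |y i|) :=
      Finset.single_le_sum (f := fun i => |x i| + |y i|) (fun j _ => by positivity) (Finset.mem_univ i)
    have h2 := neg_abs_le (x i)
    have h3 := le_abs_self (y i)
    have h4 := abs_nonneg (x i)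
    have h5 := abs_nonneg (y i)
    constructor <;> linarith
  obtain ⟨C, hC, hwin⟩ := win_bd hRH m R
  rw [Metric.tendsto_nhds]
  intro ε hε
  -- the choice of A
  obtain ⟨A, hA⟩ := exists_nat_gt ((2 + 2 * D) * Real.pi * (2 * C + M * V) * 3 / ε)
  obtain ⟨B, hB⟩ : ∃ B : ℕ, B = A + 1 := ⟨_, rfl⟩
  have hB1 : 1 ≤ B := by omega
  have hB0 : (0 : ℝ) < B := by exact_mod_cast hB1
  have hB1' : (1 : ℝ) ≤ B := by exact_mod_cast hB1
  have hBA : (2 + 2 * D) * Real.pi * (2 * C + M * V) / B < ε / 3 := by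
    have h1 : (A : ℝ) < B := by rw [hB]; push_cast; linarith
    have h2 := hA.trans h1
    rw [div_lt_iff₀ hε] at h2
    rw [div_lt_div_iff₀ hB0 (by norm_num)]
    linarith
  obtain ⟨N, a, c, hmono, happ⟩ := step_approx hW hD B hB1
  obtain ⟨ψ, hψ⟩ : ∃ ψ : ℝ → ℝ, ψ = fun v => ∑ j ∈ Finset.range N,
    c j * (Ico (a j) (a (j + 1))).indicator (1 : ℝ → ℝ) v := ⟨_, rfl⟩
  have happ' : ∀ v, |W v - ψ v| ≤ (2 + 2 * D) / B ^ 2 * (1 / (1 + (1 / (B : ℝ) * v) ^ 2)) := by
    rw [hψ]
    exact happ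
  have hlam : (0 : ℝ) < 1 / B := by positivity
  -- the limit for the step function
  have hstep : Tendsto (fun T => (∑ i ∈ Ix T x y, ψ (zx T i)) / XT T) l
      (𝓝 (∑ j ∈ Finset.range N, c j * ∫ v in (a j)..(a (j + 1)), H v)) := by
    have h1 : Tendsto (fun T => ∑ j ∈ Finset.range N, c j * ((∑ i ∈ Ix T x y,
        (Ico (a j) (a (j + 1))).indicator (1 : ℝ → ℝ) (zx T i)) / XT T)) l
        (𝓝 (∑ j ∈ Finset.range N, c j * ∫ v in (a j)..(a (j + 1)), H v)) :=
      tendsto_finsetSum _ fun j _ => (hico _ _ (hmono (Nat.le_succ j))).const_mul _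
    refine h1.congr fun T => ?_
    rw [hψ]
    simp only
    rw [Finset.sum_comm, Finset.sum_div]
    refine Finset.sum_congr rfl fun j _ => ?_
    rw [← Finset.mul_sum, mul_div_assoc]
  have hψint : ∑ j ∈ Finset.range N, c j * ∫ v in (a j)..(a (j + 1)), H v = ∫ v, ψ v * H v := by
    have h1 : ∀ j, ∀ v, (Ico (a j) (a (j + 1))).indicator (1 : ℝ → ℝ) v * H v =
        (Ico (a j) (a (j + 1))).indicator H v := by
      intro j v
      by_cases hv : v ∈ Ico (a j) (a (j + 1))
      · rw [indicator_of_mem hv, indicator_of_mem hv]; simp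
      · rw [indicator_of_notMem hv, indicator_of_notMem hv, zero_mul]
    have h2 : ∀ v, ψ v * H v = ∑ j ∈ Finset.range N, c j * (Ico (a j) (a (j + 1))).indicator H v := by
      intro v
      rw [hψ]
      simp only
      rw [Finset.sum_mul]
      exact Finset.sum_congr rfl fun j _ => by rw [mul_assoc, h1]
    have h3 : ∀ j, Integrable ((Ico (a j) (a (j + 1))).indicator H) := fun j =>
      (integrable_indicator_iff measurableSet_Ico).2
        ((hHc.continuousOn.integrableOn_compact isCompact_Icc).mono_set Ico_subset_Icc_self)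
    simp_rw [h2]
    rw [integral_finsetSum _ fun j _ => (h3 j).const_mul _]
    refine Finset.sum_congr rfl fun j _ => ?_
    rw [integral_const_mul, integral_indicator measurableSet_Ico, integral_Ico_eq_integral_Ioo,
      ← integral_Ioc_eq_integral_Ioo, ← intervalIntegral.integral_of_le (hmono (Nat.le_succ j))]
  -- integrability
  have hWHi : Integrable fun v => W v * H v := by
    refine (((wi (lam := 1) one_pos).const_mul (D * (M * V)))).mono' (hW.mul hHc).aestronglyMeasurable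
      (Eventually.of_forall fun v => ?_)
    rw [norm_mul, Real.norm_eq_abs, Real.norm_eq_abs, one_mul]
    have h1 : |W v| ≤ D / (1 + v ^ 2) := by rw [le_div_iff₀ (by positivity)]; exact hD v
    calc |W v| * |H v| ≤ D / (1 + v ^ 2) * (M * V) := by
          have := hHb v
          gcongr
      _ = _ := by ring
  have hdiffi : Integrable fun v => (W v - ψ v) * H v := by
    refine (((wi hlam).const_mul ((2 + 2 * D) / B ^ 2)).mul_const (M * V)).mono' ?_
      (Eventually.of_forall fun v => ?_)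
    · refine (hW.measurable.sub ?_).aestronglyMeasurable.mul hHc.aestronglyMeasurable
      rw [hψ]
      exact Finset.measurable_sum _ fun j _ => measurable_const.mul
        (measurable_one.indicator measurableSet_Ico)
    · rw [norm_mul, Real.norm_eq_abs, Real.norm_eq_abs]
      exact mul_le_mul (happ' v) (hHb v) (abs_nonneg _) (by positivity)
  have hψHi : Integrable fun v => ψ v * H v := by
    refine (hWHi.sub hdiffi).congr (Eventually.of_forall fun v => ?_)
    show W v * H v - (W v - ψ v) * H v = ψ v * H v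
    ring
  have hintd : |(∫ v, ψ v * H v) - ∫ v, W v * H v| ≤ (2 + 2 * D) * Real.pi * (M * V) / B := by
    rw [← integral_sub hψHi hWHi]
    have h1 : ∫ v, |ψ v * H v - W v * H v| ≤
        ∫ v, (2 + 2 * D) / B ^ 2 * (1 / (1 + (1 / (B : ℝ) * v) ^ 2)) * (M * V) := by
      refine integral_mono (hψHi.sub hWHi).abs (((wi hlam).const_mul _).mul_const _) fun v => ?_
      show |ψ v * H v - W v * H v| ≤
        (2 + 2 * D) / B ^ 2 * (1 / (1 + (1 / (B : ℝ) * v) ^ 2)) * (M * V)
      rw [← sub_mul, abs_mul, abs_sub_comm]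
      exact mul_le_mul (happ' v) (hHb v) (abs_nonneg _) (by positivity)
    refine (abs_integral_le_integral_abs).trans (h1.trans (le_of_eq ?_))
    rw [integral_mul_const, integral_const_mul, wm hlam]
    field_simp
  filter_upwards [hl hwin, (Metric.tendsto_nhds.1 hstep) (ε / 3) (by positivity),
    hl (eventually_gt_atTop (1 : ℝ))] with T k1 k2 hT
  have hX : 0 < XT T := by
    unfold Pool.Agent.K4H58.DR.XT
    have := Real.log_pos hT
    positivity
  rw [hψint, Real.dist_eq] at k2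
  have hsum : |(∑ i ∈ Ix T x y, W (zx T i)) / XT T - (∑ i ∈ Ix T x y, ψ (zx T i)) / XT T| ≤
      (2 + 2 * D) * Real.pi * (2 * C) / B := by
    rw [← sub_div, ← Finset.sum_sub_distrib, abs_div, abs_of_pos hX, div_le_iff₀ hX]
    have h1 := wt_sum hlam (Ix T x y) (zx T) (k1 x y hR)
    calc |∑ i ∈ Ix T x y, (W (zx T i) - ψ (zx T i))| ≤ ∑ i ∈ Ix T x y, |W (zx T i) - ψ (zx T i)| :=
          Finset.abs_sum_le_sum_abs _ _
      _ ≤ ∑ i ∈ Ix T x y, (2 + 2 * D) / B ^ 2 * (1 / (1 + (1 / (B : ℝ) * zx T i) ^ 2)) :=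
          Finset.sum_le_sum fun i _ => happ' _
      _ = (2 + 2 * D) / B ^ 2 * ∑ i ∈ Ix T x y, 1 / (1 + (1 / (B : ℝ) * zx T i) ^ 2) := by
          rw [Finset.mul_sum]
      _ ≤ (2 + 2 * D) / B ^ 2 * ((1 + (1 / (B : ℝ)) ^ 2) * (Real.pi / (1 / B)) * (C * XT T)) := by
          gcongr
      _ ≤ (2 + 2 * D) / B ^ 2 * ((1 + 1) * (Real.pi / (1 / B)) * (C * XT T)) := by
          have h2 : (1 / (B : ℝ)) ^ 2 ≤ 1 := by
            refine pow_le_one₀ (by positivity) ?_
            rw [div_le_one hB0]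
            exact hB1'
          gcongr
      _ = _ := by
          field_simp
          ring
  rw [Real.dist_eq]
  obtain ⟨p, hp⟩ : ∃ p, p = (∑ i ∈ Ix T x y, W (zx T i)) / XT T := ⟨_, rfl⟩
  obtain ⟨q, hq⟩ : ∃ q, q = (∑ i ∈ Ix T x y, ψ (zx T i)) / XT T := ⟨_, rfl⟩
  have hfin : (∫ v, W v * ∫ u in Icc x y, g (Fin.cons v u : Fin (m + 1) → ℝ)) = ∫ v, W v * H v := by
    rw [hH]
  rw [hfin, ← hp]
  rw [← hp, ← hq] at hsum
  rw [← hq] at k2
  have e1 : p - ∫ v, W v * H v = (p - q) + (q - ∫ v, ψ v * H v) +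
      ((∫ v, ψ v * H v) - ∫ v, W v * H v) := by ring
  rw [e1]
  have e2 : (2 + 2 * D) * Real.pi * (2 * C) / B + (2 + 2 * D) * Real.pi * (M * V) / B < ε / 3 := by
    refine lt_of_eq_of_lt ?_ hBA
    ring
  calc _ ≤ |p - q| + |q - ∫ v, ψ v * H v| + |(∫ v, ψ v * H v) - ∫ v, W v * H v| := abs_add_three _ _ _
    _ < ε := by linarith

end

end Pool.Agent.K4H58.SC
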