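import Pool.Agent.K4H58.SC.Pw
import Pool.Agent.K4H58.KL.Avg

/-! # The fourth moment of the linear statistic, on RH -/

set_option autoImplicit false

namespace Pool.Agent.K4H58.SC

open Filter Topology MeasureTheory Set
open SG (ord NZ zmult)
open SP (RHs)
open Pool.Agent.TH850.NR (phi tri cc phi_nonneg phi_decay phi_le_one phi_cont)
open Pool.Agent.K4H58.KL (sc Win Win_card Win_pow_integrable momW)

noncomputable section

lemma SJ_cont (J : ℕ) (T : ℝ) : Continuous (SJ J T) := by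
  unfold SJ
  refine continuous_finsetSum _ fun n _ => (phi_cont J).comp ?_
  unfold Pool.Agent.K4H58.KL.sc
  fun_prop

lemma SJ_nonneg (J : ℕ) (T t : ℝ) : 0 ≤ SJ J T t := Finset.sum_nonneg fun n _ => phi_nonneg _ _

/-- the number of zeros in a unit cell -/
def nk (T : ℝ) (k : ℤ) (t : ℝ) : ℝ :=
  ∑ n ∈ Finset.Icc 1 (NZ T), (Ico (k : ℝ) (k + 1)).indicator (1 : ℝ → ℝ) (sc T t n)

lemma nk_zero (T t : ℝ) : nk T 0 t = ((Win 0 T t).card : ℝ) := by
  rw [Win_card]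
  unfold nk
  simp

lemma nk_shift {T : ℝ} (hT : 1 < T) (k : ℤ) (t : ℝ) :
    nk T k t = nk T 0 (t + k * (2 * Real.pi / Real.log T)) := by
  have hL := Real.log_pos hT
  have hpi := Real.pi_pos
  unfold nk
  refine Finset.sum_congr rfl fun n _ => ?_
  have h1 : sc T (t + k * (2 * Real.pi / Real.log T)) n = sc T t n - k := by
    unfold Pool.Agent.K4H58.KL.sc
    field_simp
    ring
  rw [h1]
  by_cases h : sc T t n ∈ Ico (k : ℝ) (k + 1)
  · rw [indicator_of_mem h, indicator_of_mem]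
    · rfl
    · push_cast
      exact ⟨by linarith [h.1], by linarith [h.2]⟩
  · rw [indicator_of_notMem h, indicator_of_notMem]
    intro h2
    push_cast at h2
    exact h ⟨by linarith [h2.1], by linarith [h2.2]⟩

lemma nk_nonneg (T : ℝ) (k : ℤ) (t : ℝ) : 0 ≤ nk T k t :=
  Finset.sum_nonneg fun n _ => indicator_nonneg (fun _ _ => zero_le_one) _

lemma nk_int {T : ℝ} (hT : 1 < T) (k : ℤ) : Integrable fun t => nk T k t ^ 4 := by
  have h1 := Win_pow_integrable hT 0 3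
  have h2 : Integrable fun t => nk T 0 t ^ 4 := by
    simp_rw [nk_zero]
    exact h1
  have h3 := h2.comp_add_right (k * (2 * Real.pi / Real.log T))
  refine h3.congr (Eventually.of_forall fun t => ?_)
  show nk T 0 (t + k * (2 * Real.pi / Real.log T)) ^ 4 = nk T k t ^ 4
  rw [← nk_shift hT]

lemma nk_mom {T : ℝ} (hT : 1 < T) (k : ℤ) : ∫ t, nk T k t ^ 4 = ∫ t, ((Win 0 T t).card : ℝ) ^ 4 := by
  have h2 : ∫ t, nk T k t ^ 4 = ∫ t, (fun t => nk T 0 t ^ 4) (t + k * (2 * Real.pi / Real.log T)) :=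
    integral_congr_ae (Eventually.of_forall fun t => by
      show nk T k t ^ 4 = nk T 0 (t + k * (2 * Real.pi / Real.log T)) ^ 4
      rw [← nk_shift hT])
  refine (h2.trans (integral_add_right_eq_self (μ := volume) (fun t => nk T 0 t ^ 4)
    (k * (2 * Real.pi / Real.log T)))).trans ?_
  simp_rw [nk_zero]

lemma cell_w {x : ℝ} {k : ℤ} (h : x ∈ Ico (k : ℝ) (k + 1)) : (1 : ℝ) + k ^ 2 ≤ 3 * (1 + x ^ 2) := by
  have h1 := h.1
  have h2 := h.2
  nlinarith [sq_nonneg (x - k), sq_nonneg (x + (x - k)), sq_nonneg (2 * x - k)]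

lemma summable_w : Summable fun k : ℤ => 1 / (1 + (k : ℝ) ^ 2) := by
  have h1 : Summable fun k : ℤ => 1 / (k : ℝ) ^ 2 := Real.summable_one_div_int_pow.2 (by norm_num)
  have h2 : Summable fun k : ℤ => (if k = 0 then (1 : ℝ) else 0) :=
    summable_of_hasFiniteSupport ((Set.finite_singleton (0 : ℤ)).subset fun k hk => by
      by_contra h
      simp only [mem_singleton_iff] at h
      simp [h] at hk)
  refine Summable.of_nonneg_of_le (fun k => by positivity) (fun k => ?_) (h1.add h2)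
  by_cases h : k = 0
  · simp [h]
  · rw [if_neg h, add_zero]
    have h3 : (0 : ℝ) < (k : ℝ) ^ 2 := by
      have : (k : ℝ) ≠ 0 := by exact_mod_cast h
      positivity
    exact one_div_le_one_div_of_le h3 (by linarith)

lemma cs_w {ι : Type} (s : Finset ι) (a b : ι → ℝ) (ha : ∀ i ∈ s, 0 ≤ a i) :
    (∑ i ∈ s, a i * b i) ^ 2 ≤ (∑ i ∈ s, a i) * ∑ i ∈ s, a i * b i ^ 2 :=
  Finset.sum_sq_le_sum_mul_sum_of_sq_le_mul s ha (fun i hi => mul_nonneg (ha i hi) (sq_nonneg _))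
    fun i _ => le_of_eq (by ring)

lemma pow_four {ι : Type} (s : Finset ι) (a b : ι → ℝ) (ha : ∀ i ∈ s, 0 ≤ a i) :
    (∑ i ∈ s, a i * b i) ^ 4 ≤ (∑ i ∈ s, a i) ^ 3 * ∑ i ∈ s, a i * b i ^ 4 := by
  have h1 := cs_w s a b ha
  have h2 := cs_w s a (fun i => b i ^ 2) ha
  have h3 : 0 ≤ ∑ i ∈ s, a i := Finset.sum_nonneg ha
  have h4 : ∀ i, (b i ^ 2) ^ 2 = b i ^ 4 := fun i => by ring
  simp only [h4] at h2
  have h5 : 0 ≤ ∑ i ∈ s, a i * b i ^ 2 := Finset.sum_nonneg fun i hi => mul_nonneg (ha i hi) (sq_nonneg _)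
  calc (∑ i ∈ s, a i * b i) ^ 4 = ((∑ i ∈ s, a i * b i) ^ 2) ^ 2 := by ring
    _ ≤ ((∑ i ∈ s, a i) * ∑ i ∈ s, a i * b i ^ 2) ^ 2 := pow_le_pow_left₀ (sq_nonneg _) h1 2
    _ = (∑ i ∈ s, a i) ^ 2 * (∑ i ∈ s, a i * b i ^ 2) ^ 2 := by ring
    _ ≤ (∑ i ∈ s, a i) ^ 2 * ((∑ i ∈ s, a i) * ∑ i ∈ s, a i * b i ^ 4) :=
        mul_le_mul_of_nonneg_left h2 (sq_nonneg _)
    _ = _ := by ring

/-- domination by the cells -/
lemma SJ_cells (J : ℕ) (hJ : 1 ≤ J) {T t : ℝ} (hT : 1 < T) (ht0 : 0 ≤ t) (ht1 : t ≤ T + 1) :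
    SJ J T t ≤ ∑ k ∈ Finset.Icc (-(⌈(T + 1) * Real.log T⌉₊ : ℤ)) ⌈(T + 1) * Real.log T⌉₊,
      3 * (1 + 4 ^ J / (7 * J)) * (1 / (1 + (k : ℝ) ^ 2)) * nk T k t := by
  classical
  have hL := Real.log_pos hT
  have hpi := Real.pi_gt_three
  have hJ' : (0 : ℝ) < J := by exact_mod_cast hJ
  obtain ⟨M, hM⟩ : ∃ M, M = ⌈(T + 1) * Real.log T⌉₊ := ⟨_, rfl⟩
  have hM1 : (T + 1) * Real.log T ≤ M := by rw [hM]; exact Nat.le_ceil _
  rw [← hM]
  unfold nk SJ
  simp_rw [Finset.mul_sum]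
  rw [Finset.sum_comm]
  refine Finset.sum_le_sum fun n hn => ?_
  rw [Finset.mem_Icc] at hn
  have hn1 := SG.ord_pos hn.1
  have hn2 := (SG.ord_le_iff hn.1 T).2 hn.2
  obtain ⟨x, hx⟩ : ∃ x, x = sc T t n := ⟨_, rfl⟩
  rw [← hx]
  have habs : |x| < M := by
    rw [hx]
    unfold Pool.Agent.K4H58.KL.sc
    rw [abs_mul]
    have h1 : |ord n - t| ≤ T + 1 := by
      rw [abs_le]
      constructor <;> linarith
    have h2 : |Real.log T / (2 * Real.pi)| < Real.log T := by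
      rw [abs_of_pos (by positivity), div_lt_iff₀ (by positivity)]
      nlinarith
    calc |ord n - t| * |Real.log T / (2 * Real.pi)| ≤ (T + 1) * |Real.log T / (2 * Real.pi)| :=
          mul_le_mul_of_nonneg_right h1 (abs_nonneg _)
      _ < (T + 1) * Real.log T := mul_lt_mul_of_pos_left h2 (by linarith)
      _ ≤ M := hM1
  have hk : (⌊x⌋ : ℤ) ∈ Finset.Icc (-(M : ℤ)) M := by
    rw [Finset.mem_Icc]
    have h3 := abs_lt.1 habs
    constructor
    · rw [Int.le_floor]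
      push_cast
      exact h3.1.le
    · have := Int.floor_lt (a := x) (z := (M : ℤ))
      refine (this.2 ?_).le
      push_cast
      exact h3.2
  have hpos : ∀ k ∈ Finset.Icc (-(M : ℤ)) M, 0 ≤ 3 * (1 + 4 ^ J / (7 * (J : ℝ))) *
      (1 / (1 + (k : ℝ) ^ 2)) * (Ico (k : ℝ) (k + 1)).indicator (1 : ℝ → ℝ) x := fun k _ =>
    mul_nonneg (by positivity) (indicator_nonneg (fun _ _ => zero_le_one) _)
  refine le_trans ?_ (Finset.single_le_sum hpos hk)
  have hmem : x ∈ Ico (⌊x⌋ : ℝ) (⌊x⌋ + 1) := ⟨Int.floor_le x, Int.lt_floor_add_one x⟩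
  rw [indicator_of_mem hmem]
  have h4 := cell_w hmem
  have h5 := phi_le_one J hJ x
  have h6 := phi_decay J hJ x
  have h7 : phi J x * (1 + x ^ 2) ≤ 1 + 4 ^ J / (7 * (J : ℝ)) := by linarith
  simp only [Pi.one_apply, mul_one]
  rw [mul_one_div, le_div_iff₀ (by positivity)]
  calc phi J x * (1 + (⌊x⌋ : ℝ) ^ 2) ≤ phi J x * (3 * (1 + x ^ 2)) :=
        mul_le_mul_of_nonneg_left h4 (phi_nonneg _ _)
    _ = 3 * (phi J x * (1 + x ^ 2)) := by ring
    _ ≤ _ := by linarith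

/-- **the fourth moment** -/
theorem mom4 (hRH : RHs) (J : ℕ) (hJ : 1 ≤ J) : ∃ C : ℝ, 0 < C ∧ ∀ᶠ T : ℝ in atTop,
    ∫ t in Icc 0 (T + 1), SJ J T t ^ 4 ≤ C * T := by
  have hJ' : (0 : ℝ) < J := by exact_mod_cast hJ
  obtain ⟨C, hC, h⟩ := momW hRH 0 3
  obtain ⟨A, hA⟩ : ∃ A : ℝ, A = 3 * (1 + 4 ^ J / (7 * (J : ℝ))) := ⟨_, rfl⟩
  have hA0 : 0 < A := by rw [hA]; positivity
  obtain ⟨B, hB⟩ : ∃ B : ℝ, B = ∑' k : ℤ, 1 / (1 + (k : ℝ) ^ 2) := ⟨_, rfl⟩
  have hBs : ∀ s : Finset ℤ, ∑ k ∈ s, 1 / (1 + (k : ℝ) ^ 2) ≤ B := fun s => by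
    rw [hB]
    exact summable_w.sum_le_tsum _ fun k _ => by positivity
  have hB0 : 0 < B := by
    have := hBs {0}
    simp at this
    linarith
  refine ⟨(A * B) ^ 4 * C, by positivity, ?_⟩
  filter_upwards [h, eventually_gt_atTop 1] with T h1 hT
  obtain ⟨K, hK⟩ : ∃ K : Finset ℤ, K = Finset.Icc (-(⌈(T + 1) * Real.log T⌉₊ : ℤ))
    ⌈(T + 1) * Real.log T⌉₊ := ⟨_, rfl⟩
  have hak : ∀ k : ℤ, 0 ≤ A * (1 / (1 + (k : ℝ) ^ 2)) := fun k => by positivity
  have hsum : ∑ k ∈ K, A * (1 / (1 + (k : ℝ) ^ 2)) ≤ A * B := by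
    rw [← Finset.mul_sum]
    exact mul_le_mul_of_nonneg_left (hBs K) hA0.le
  have hsum0 : 0 ≤ ∑ k ∈ K, A * (1 / (1 + (k : ℝ) ^ 2)) := Finset.sum_nonneg fun k _ => hak k
  have hI : Integrable fun t => (A * B) ^ 3 * ∑ k ∈ K, A * (1 / (1 + (k : ℝ) ^ 2)) * nk T k t ^ 4 :=
    (integrable_finsetSum _ fun k _ => (nk_int hT k).const_mul _).const_mul _
  calc ∫ t in Icc 0 (T + 1), SJ J T t ^ 4 ≤
      ∫ t in Icc 0 (T + 1), (A * B) ^ 3 * ∑ k ∈ K, A * (1 / (1 + (k : ℝ) ^ 2)) * nk T k t ^ 4 := by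
        refine setIntegral_mono_on (((SJ_cont J T).pow 4).continuousOn.integrableOn_compact
          isCompact_Icc) hI.integrableOn measurableSet_Icc fun t ht => ?_
        have h2 := SJ_cells J hJ hT ht.1 ht.2
        rw [← hK, ← hA] at h2
        calc SJ J T t ^ 4 ≤ (∑ k ∈ K, A * (1 / (1 + (k : ℝ) ^ 2)) * nk T k t) ^ 4 :=
              pow_le_pow_left₀ (SJ_nonneg J T t) h2 4
          _ ≤ (∑ k ∈ K, A * (1 / (1 + (k : ℝ) ^ 2))) ^ 3 *
              ∑ k ∈ K, A * (1 / (1 + (k : ℝ) ^ 2)) * nk T k t ^ 4 :=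
              pow_four K _ _ fun k _ => hak k
          _ ≤ _ := by
              refine mul_le_mul_of_nonneg_right (pow_le_pow_left₀ hsum0 hsum 3) ?_
              exact Finset.sum_nonneg fun k _ => mul_nonneg (hak k) (pow_nonneg (nk_nonneg T k t) 4)
    _ ≤ ∫ t, (A * B) ^ 3 * ∑ k ∈ K, A * (1 / (1 + (k : ℝ) ^ 2)) * nk T k t ^ 4 := by
        refine setIntegral_le_integral hI (Eventually.of_forall fun t => ?_)
        show 0 ≤ (A * B) ^ 3 * ∑ k ∈ K, A * (1 / (1 + (k : ℝ) ^ 2)) * nk T k t ^ 4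
        exact mul_nonneg (by positivity) (Finset.sum_nonneg fun k _ =>
          mul_nonneg (hak k) (pow_nonneg (nk_nonneg T k t) 4))
    _ = (A * B) ^ 3 * ∑ k ∈ K, A * (1 / (1 + (k : ℝ) ^ 2)) * ∫ t, ((Win 0 T t).card : ℝ) ^ 4 := by
        rw [integral_const_mul, integral_finsetSum _ fun k _ => (nk_int hT k).const_mul _]
        congr 1
        refine Finset.sum_congr rfl fun k _ => ?_
        rw [integral_const_mul, nk_mom hT]
    _ ≤ (A * B) ^ 3 * (A * B * (C * T)) := by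
        rw [← Finset.sum_mul]
        have h3 : 0 ≤ ∫ t, ((Win 0 T t).card : ℝ) ^ 4 := integral_nonneg fun t => by positivity
        have h4 : ∫ t, ((Win 0 T t).card : ℝ) ^ 4 ≤ C * T := h1
        gcongr
    _ = _ := by ring

/-- short intervals -/
theorem short (hRH : RHs) (J : ℕ) (hJ : 1 ≤ J) {ε : ℝ} (hε : 0 < ε) : ∃ δ : ℝ, 0 < δ ∧
    ∀ᶠ T : ℝ in atTop, ∀ a b : ℝ, 0 ≤ a → a ≤ b → b ≤ T + 1 → b - a ≤ δ * T →
      ∫ t in a..b, (SJ J T t - cc J) ^ 2 ≤ ε * T := by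
  obtain ⟨C, hC, h⟩ := mom4 hRH J hJ
  obtain ⟨lam, hlam⟩ : ∃ lam : ℝ, lam = ε / (2 * C) := ⟨_, rfl⟩
  have hlam0 : 0 < lam := by rw [hlam]; positivity
  have hcc := Pool.Agent.TH850.NR.cc_nonneg J
  refine ⟨ε / (2 * (1 / lam + 2 * cc J ^ 2)), by positivity, ?_⟩
  filter_upwards [h, eventually_ge_atTop 1] with T h1 hT a b ha hab hb hlen
  have hSc := SJ_cont J T
  have h2 : ∀ t, (SJ J T t - cc J) ^ 2 ≤ lam * SJ J T t ^ 4 + (1 / lam + 2 * cc J ^ 2) := by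
    intro t
    have e1 : (SJ J T t - cc J) ^ 2 ≤ 2 * SJ J T t ^ 2 + 2 * cc J ^ 2 := by
      nlinarith [sq_nonneg (SJ J T t + cc J)]
    have e2 : 2 * SJ J T t ^ 2 ≤ lam * SJ J T t ^ 4 + 1 / lam := by
      have e3 : 0 ≤ lam * (SJ J T t ^ 2 - 1 / lam) ^ 2 := by positivity
      have e4 : lam * (SJ J T t ^ 2 - 1 / lam) ^ 2 = lam * SJ J T t ^ 4 - 2 * SJ J T t ^ 2 + 1 / lam := by
        field_simp
        ring
      linarith
    linarith
  have h3 : ∫ t in a..b, SJ J T t ^ 4 ≤ C * T := by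
    rw [intervalIntegral.integral_of_le hab, ← integral_Icc_eq_integral_Ioc]
    refine le_trans ?_ h1
    refine setIntegral_mono_set ((hSc.pow 4).continuousOn.integrableOn_compact isCompact_Icc)
      (Eventually.of_forall fun t => by
        show 0 ≤ SJ J T t ^ 4
        positivity) ?_
    exact (Icc_subset_Icc ha hb).eventuallyLE
  calc ∫ t in a..b, (SJ J T t - cc J) ^ 2 ≤
      ∫ t in a..b, (lam * SJ J T t ^ 4 + (1 / lam + 2 * cc J ^ 2)) :=
        intervalIntegral.integral_mono_on hab (Continuous.intervalIntegrable (by fun_prop) _ _)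
          (Continuous.intervalIntegrable (by fun_prop) _ _) fun t _ => h2 t
    _ = lam * (∫ t in a..b, SJ J T t ^ 4) + (b - a) * (1 / lam + 2 * cc J ^ 2) := by
        rw [intervalIntegral.integral_add (Continuous.intervalIntegrable (by fun_prop) _ _)
          (Continuous.intervalIntegrable (by fun_prop) _ _), intervalIntegral.integral_const_mul,
          intervalIntegral.integral_const, smul_eq_mul]
    _ ≤ lam * (C * T) + (ε / (2 * (1 / lam + 2 * cc J ^ 2)) * T) * (1 / lam + 2 * cc J ^ 2) := by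
        gcongr
    _ = ε * T := by
        rw [hlam]
        field_simp
        ring

end

end Pool.Agent.K4H58.SC
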