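import Pool.Agent.K4H58.DR.Blk
import Pool.Agent.TH850.UR.ClaimA

/-! # The linear statistic of the ordinates and the explicit formula, on RH -/

set_option autoImplicit false

namespace Pool.Agent.K4H58.SC

open Filter Topology MeasureTheory Set
open SG (ord NZ zmult)
open SP (RHs)
open H370 (Zf good_zeta mult zz)
open Pool.Agent.TH850.NR (phi tri cc phi_nonneg phi_decay phi_le_one trans)
open Pool.Agent.TH850.UR (phiC HT full transC)
open Pool.Agent.K4H58.KL (sc)
open Pool.Agent.K4H58.DR (sum_idx mem_J unit_count wt_sum)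

noncomputable section

/-- the linear statistic -/
def SJ (J : ℕ) (T t : ℝ) : ℝ := ∑ n ∈ Finset.Icc 1 (NZ T), phi J (sc T t n)

lemma phiC_real (J : ℕ) (x : ℝ) : phiC J (x : ℂ) = ((phi J x : ℝ) : ℂ) := by
  rw [← transC, ← trans, ← intervalIntegral.integral_ofReal]
  refine intervalIntegral.integral_congr fun α _ => ?_
  show (tri J α : ℂ) * Complex.cos (2 * Real.pi * α * x) =
    ((tri J α * Real.cos (2 * Real.pi * α * x) : ℝ) : ℂ)
  push_cast
  rfl

/-- zeros near a point -/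
lemma near : ∃ C : ℝ, 0 < C ∧ ∀ T : ℝ, 10 ≤ T → ∀ x : ℝ, ∑ l ∈ Finset.Icc 1 (NZ T),
    (Icc (-1 : ℝ) 1).indicator (1 : ℝ → ℝ) (ord l - x) ≤ C * Real.log T := by
  classical
  obtain ⟨C, hC, h⟩ := unit_count
  refine ⟨3 * C, by positivity, fun T hT10 x => ?_⟩
  have hL : 0 < Real.log T := Real.log_pos (by linarith)
  have h1 : ∑ l ∈ Finset.Icc 1 (NZ T), (Icc (-1 : ℝ) 1).indicator (1 : ℝ → ℝ) (ord l - x) ≤
      (((Finset.Icc 1 (NZ T)).filter fun l => ord l - x ∈ Icc (-1 : ℝ) 1).card : ℝ) := by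
    rw [Finset.card_filter]
    push_cast
    refine Finset.sum_le_sum fun l _ => ?_
    by_cases h2 : ord l - x ∈ Icc (-1 : ℝ) 1
    · rw [indicator_of_mem h2, if_pos h2]
      simp
    · rw [indicator_of_notMem h2, if_neg h2]
  rcases le_or_gt x (T + 1) with hx | hx
  · have h2 : (Finset.Icc 1 (NZ T)).filter (fun l => ord l - x ∈ Icc (-1 : ℝ) 1) ⊆
        Finset.Ioc (NZ (x - 2)) (NZ (min (x + 1) T)) := by
      intro l hl
      rw [Finset.mem_filter, Finset.mem_Icc] at hl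
      obtain ⟨⟨a1, a2⟩, a3, a4⟩ := hl
      rw [Finset.mem_Ioc]
      constructor
      · by_contra hcon
        push Not at hcon
        have := (SG.ord_le_iff a1 (x - 2)).2 hcon
        linarith
      · refine (SG.ord_le_iff a1 _).1 (le_min (by linarith) ((SG.ord_le_iff a1 _).2 a2))
    have h3 := Finset.card_le_card h2
    rw [Nat.card_Ioc] at h3
    have hm1 : NZ (x - 2) ≤ NZ (x - 1) := SG.NZ_mono (by linarith)
    have hm2 : NZ (x - 1) ≤ NZ x := SG.NZ_mono (by linarith)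
    have hm3 : NZ x ≤ NZ (x + 1) := SG.NZ_mono (by linarith)
    have g1 := h T hT10 (x - 2) (by linarith)
    have g2 := h T hT10 (x - 1) (by linarith)
    rw [show x - 2 + 1 = x - 1 by ring] at g1
    rw [show x - 1 + 1 = x by ring] at g2
    have g0 : 0 ≤ C * Real.log T := by positivity
    rcases le_or_gt x T with hxT | hxT
    · have g3 := h T hT10 x hxT
      have h4 : NZ (min (x + 1) T) ≤ NZ (x + 1) := SG.NZ_mono (min_le_left _ _)
      have h5 : (((NZ (min (x + 1) T) - NZ (x - 2) : ℕ)) : ℝ) ≤ (NZ (x + 1) : ℝ) - NZ (x - 2) := by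
        have : NZ (min (x + 1) T) - NZ (x - 2) ≤ NZ (x + 1) - NZ (x - 2) := Nat.sub_le_sub_right h4 _
        have h6 : ((NZ (x + 1) - NZ (x - 2) : ℕ) : ℝ) = (NZ (x + 1) : ℝ) - NZ (x - 2) :=
          Nat.cast_sub (hm1.trans (hm2.trans hm3))
        rw [← h6]
        exact_mod_cast this
      have h7 : (((Finset.Icc 1 (NZ T)).filter fun l => ord l - x ∈ Icc (-1 : ℝ) 1).card : ℝ) ≤
        ((NZ (min (x + 1) T) - NZ (x - 2) : ℕ) : ℝ) := by exact_mod_cast h3
      linarith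
    · have h4 : NZ (min (x + 1) T) ≤ NZ x := SG.NZ_mono ((min_le_right _ _).trans hxT.le)
      have h5 : (((NZ (min (x + 1) T) - NZ (x - 2) : ℕ)) : ℝ) ≤ (NZ x : ℝ) - NZ (x - 2) := by
        have : NZ (min (x + 1) T) - NZ (x - 2) ≤ NZ x - NZ (x - 2) := Nat.sub_le_sub_right h4 _
        have h6 : ((NZ x - NZ (x - 2) : ℕ) : ℝ) = (NZ x : ℝ) - NZ (x - 2) :=
          Nat.cast_sub (hm1.trans hm2)
        rw [← h6]
        exact_mod_cast this
      have h7 : (((Finset.Icc 1 (NZ T)).filter fun l => ord l - x ∈ Icc (-1 : ℝ) 1).card : ℝ) ≤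
        ((NZ (min (x + 1) T) - NZ (x - 2) : ℕ) : ℝ) := by exact_mod_cast h3
      linarith
  · have h2 : (Finset.Icc 1 (NZ T)).filter (fun l => ord l - x ∈ Icc (-1 : ℝ) 1) = ∅ := by
      rw [Finset.filter_eq_empty_iff]
      intro l hl h3
      rw [Finset.mem_Icc] at hl
      have := (SG.ord_le_iff hl.1 T).2 hl.2
      linarith [h3.1]
    rw [h2] at h1
    simp only [Finset.card_empty, Nat.cast_zero] at h1
    have : 0 ≤ 3 * C * Real.log T := by positivity
    linarith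

lemma gsum : ∃ C : ℝ, 0 < C ∧ ∀ T : ℝ, 10 ≤ T → ∀ t : ℝ,
    ∑ n ∈ Finset.Icc 1 (NZ T), 1 / (1 + (ord n - t) ^ 2) ≤ C * Real.log T := by
  obtain ⟨C, hC, h⟩ := near
  have hpi := Real.pi_pos
  refine ⟨(1 + 1 ^ 2) * (Real.pi / 1) * C, by positivity, fun T hT t => ?_⟩
  have h1 := wt_sum (lam := 1) one_pos (Finset.Icc 1 (NZ T)) (fun n => ord n - t)
    (B := C * Real.log T) (fun y => by
      have h2 := h T hT (t + y)
      refine le_trans (le_of_eq ?_) h2
      refine Finset.sum_congr rfl fun l _ => ?_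
      congr 1
      ring)
  simp only [one_mul] at h1
  rw [← mul_assoc] at h1
  refine le_trans h1 (le_of_eq ?_)
  ring

/-- the explicit formula side as a sum over the indices -/
lemma HT_idx (RH : RiemannHypothesis) (J : ℕ) (l : ℝ) {U1 U2 : ℝ} (hU : 1 ≤ U1) (t : ℝ) :
    2 * (HT J l U1 U2 t).re = ∑ n ∈ Finset.Ioc (NZ U1) (NZ U2),
      Real.exp (-(ord n - t) ^ 2 / 2) * phi J ((ord n - t) * (l / (2 * Real.pi))) := by
  have h := full J l hU (U2 := U2) t
  have h2 := sum_idx RH hU (B := U2) (fun x =>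
    Real.exp (-(x - t) ^ 2 / 2) * phi J ((x - t) * (l / (2 * Real.pi))))
  rw [← h2]
  apply Complex.ofReal_injective
  rw [← h, Complex.ofReal_sum]
  refine Finset.sum_congr rfl fun s hs => ?_
  have hz : zz s = (s.im : ℂ) := by
    obtain ⟨h1, h3, -, h4⟩ := H370.A3.on_line RH hU hs
    have him : 0 < s.im := by linarith
    have hz : riemannZeta s = 0 := by rw [← h1]; exact h4
    have hre := Pool.Agent.K4H58.DR.re_half RH hz him
    unfold zz
    apply Complex.ext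
    · simp
    · simp [hre]
  rw [hz]
  have e1 : ((s.im : ℂ) - t) = ((s.im - t : ℝ) : ℂ) := by push_cast; rfl
  rw [e1, ← Complex.ofReal_mul, phiC_real]
  push_cast
  ring

/-- removal of the damping -/
lemma damp2 (d : ℝ) : (1 - Real.exp (-d ^ 2 / 2)) * (1 + d ^ 2) ≤ 3 / 2 * d ^ 2 := by
  have h1 : 1 - Real.exp (-d ^ 2 / 2) ≤ d ^ 2 / 2 := by
    have := Real.add_one_le_exp (-d ^ 2 / 2)
    linarith
  have h2 : 1 - Real.exp (-d ^ 2 / 2) ≤ 1 := by
    have := Real.exp_pos (-d ^ 2 / 2)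
    linarith
  have hd := sq_nonneg d
  rcases le_or_gt (d ^ 2) 2 with h | h
  · calc _ ≤ d ^ 2 / 2 * (1 + d ^ 2) := mul_le_mul_of_nonneg_right h1 (by linarith)
      _ ≤ _ := by nlinarith
  · calc _ ≤ 1 * (1 + d ^ 2) := mul_le_mul_of_nonneg_right h2 (by linarith)
      _ ≤ _ := by linarith

/-- **pointwise comparison** -/
theorem pw (RH : RiemannHypothesis) (J : ℕ) (hJ : 1 ≤ J) : ∃ K : ℝ, 0 < K ∧ ∀ T : ℝ, 10 ≤ T →
    ∀ U1 U2 t : ℝ, 1 ≤ U1 → U1 + 1 ≤ t → t + 1 ≤ U2 → U2 ≤ T →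
    |SJ J T t - 2 * (HT J (Real.log T) U1 U2 t).re| ≤ K / Real.log T := by
  classical
  obtain ⟨C, hC, hg⟩ := gsum
  have hpi := Real.pi_pos
  have hJ' : (0 : ℝ) < J := by exact_mod_cast hJ
  obtain ⟨P, hP⟩ : ∃ P : ℝ, P = 4 ^ J / (7 * J) := ⟨_, rfl⟩
  have hP0 : 0 < P := by rw [hP]; positivity
  obtain ⟨K1, hK1⟩ : ∃ K1 : ℝ, K1 = 2 * P * (2 * Real.pi) ^ 2 := ⟨_, rfl⟩
  have hK10 : 0 < K1 := by rw [hK1]; positivity
  refine ⟨K1 * C, by positivity, fun T hT U1 U2 t hU1 ht1 ht2 hU2 => ?_⟩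
  have hL : 0 < Real.log T := Real.log_pos (by linarith)
  rw [HT_idx RH J _ hU1]
  have hsub : Finset.Ioc (NZ U1) (NZ U2) ⊆ Finset.Icc 1 (NZ T) := by
    intro n hn
    rw [Finset.mem_Ioc] at hn
    have := SG.NZ_mono hU2
    rw [Finset.mem_Icc]
    omega
  have hkey : ∀ d : ℝ, phi J (d * (Real.log T / (2 * Real.pi))) * d ^ 2 * Real.log T ^ 2 ≤
      P * (2 * Real.pi) ^ 2 := by
    intro d
    have h1 := phi_decay J hJ (d * (Real.log T / (2 * Real.pi)))
    rw [← hP] at h1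
    calc _ = phi J (d * (Real.log T / (2 * Real.pi))) * (d * (Real.log T / (2 * Real.pi))) ^ 2 *
          (2 * Real.pi) ^ 2 := by field_simp
      _ ≤ _ := mul_le_mul_of_nonneg_right h1 (by positivity)
  have hscal : ∀ n, sc T t n = (ord n - t) * (Real.log T / (2 * Real.pi)) := fun n => rfl
  have h1 : SJ J T t - ∑ n ∈ Finset.Ioc (NZ U1) (NZ U2),
      Real.exp (-(ord n - t) ^ 2 / 2) * phi J ((ord n - t) * (Real.log T / (2 * Real.pi))) =
      ∑ n ∈ Finset.Icc 1 (NZ T), (phi J (sc T t n) - if n ∈ Finset.Ioc (NZ U1) (NZ U2) then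
        Real.exp (-(ord n - t) ^ 2 / 2) * phi J ((ord n - t) * (Real.log T / (2 * Real.pi))) else 0) := by
    rw [Finset.sum_sub_distrib, ← Finset.sum_filter, Finset.filter_mem_eq_inter,
      Finset.inter_eq_right.2 hsub]
    rfl
  rw [h1]
  refine (Finset.abs_sum_le_sum_abs _ _).trans ?_
  have h2 : ∀ n ∈ Finset.Icc 1 (NZ T), |phi J (sc T t n) - if n ∈ Finset.Ioc (NZ U1) (NZ U2) then
        Real.exp (-(ord n - t) ^ 2 / 2) * phi J ((ord n - t) * (Real.log T / (2 * Real.pi))) else 0| ≤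
      K1 / Real.log T ^ 2 * (1 / (1 + (ord n - t) ^ 2)) := by
    intro n hn
    obtain ⟨d, hd⟩ : ∃ d, d = ord n - t := ⟨_, rfl⟩
    have hd2 := sq_nonneg d
    rw [hscal, ← hd, div_mul_div_comm, mul_one, le_div_iff₀ (by positivity)]
    obtain ⟨F, hF⟩ : ∃ F, F = phi J (d * (Real.log T / (2 * Real.pi))) := ⟨_, rfl⟩
    have hk := hkey d
    rw [← hF] at hk ⊢
    have hF0 : 0 ≤ F := by rw [hF]; exact phi_nonneg _ _
    have hL2 : 0 < Real.log T ^ 2 := by positivity
    by_cases hin : n ∈ Finset.Ioc (NZ U1) (NZ U2)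
    · rw [if_pos hin]
      have he : Real.exp (-d ^ 2 / 2) ≤ 1 := Real.exp_le_one_iff.2 (by linarith)
      rw [abs_of_nonneg (by nlinarith [mul_nonneg hF0 (sub_nonneg.2 he)])]
      have h3 := damp2 d
      calc (F - Real.exp (-d ^ 2 / 2) * F) * (Real.log T ^ 2 * (1 + d ^ 2)) =
          F * Real.log T ^ 2 * ((1 - Real.exp (-d ^ 2 / 2)) * (1 + d ^ 2)) := by ring
        _ ≤ F * Real.log T ^ 2 * (3 / 2 * d ^ 2) := mul_le_mul_of_nonneg_left h3 (by positivity)
        _ = 3 / 2 * (F * d ^ 2 * Real.log T ^ 2) := by ring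
        _ ≤ 3 / 2 * (P * (2 * Real.pi) ^ 2) := by linarith
        _ ≤ K1 := by
            rw [hK1]
            have : 0 < P * (2 * Real.pi) ^ 2 := by positivity
            linarith
    · rw [if_neg hin, sub_zero, abs_of_nonneg hF0]
      have hn1 : 1 ≤ n := (Finset.mem_Icc.1 hn).1
      have hfar : 1 ≤ d ^ 2 := by
        rw [mem_J hn1, not_and_or] at hin
        rcases hin with h3 | h3
        · push Not at h3
          have : d ≤ -1 := by rw [hd]; linarith
          nlinarith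
        · push Not at h3
          have : 1 ≤ d := by rw [hd]; linarith
          nlinarith
      calc F * (Real.log T ^ 2 * (1 + d ^ 2)) = F * Real.log T ^ 2 * (1 + d ^ 2) := by ring
        _ ≤ F * Real.log T ^ 2 * (2 * d ^ 2) := mul_le_mul_of_nonneg_left (by linarith) (by positivity)
        _ = 2 * (F * d ^ 2 * Real.log T ^ 2) := by ring
        _ ≤ 2 * (P * (2 * Real.pi) ^ 2) := by linarith
        _ = K1 := by rw [hK1]; ring
  refine (Finset.sum_le_sum h2).trans ?_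
  rw [← Finset.mul_sum]
  calc K1 / Real.log T ^ 2 * ∑ n ∈ Finset.Icc 1 (NZ T), 1 / (1 + (ord n - t) ^ 2) ≤
      K1 / Real.log T ^ 2 * (C * Real.log T) := mul_le_mul_of_nonneg_left (hg T hT t) (by positivity)
    _ = _ := by field_simp

end

end Pool.Agent.K4H58.SC
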