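import Pool.Agent.K4H58.SC.Lim

/-! # The sum rule, on RH -/

set_option autoImplicit false

namespace Pool.Agent.K4H58.SC

open Filter Topology MeasureTheory Set
open SG (ord NZ zmult)
open SP (RHs)
open Pool.Agent.TH850.NR (phi tri cc phi_nonneg phi_decay phi_le_one phi_cont cc_nonneg phi_integrable
  sum_two)
open Pool.Agent.R320.KL
open Pool.Agent.K4H58.KL (cons_cont)
open Pool.Agent.K4H58.DR (XT LG hh hh_eq hh_zero hh_mass hh_sc_int)

noncomputable section

lemma sinc_hh (x : ℝ) : Real.sinc (Real.pi * x) ^ 2 = hh x := by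
  rcases eq_or_ne x 0 with h | h
  · rw [h, hh_zero, mul_zero, Real.sinc_zero, one_pow]
  · rw [hh_eq h, Real.sinc_of_ne_zero (mul_ne_zero Real.pi_pos.ne' h)]

lemma phi_hh (J : ℕ) (x : ℝ) : phi J x = (∑ j ∈ Finset.Icc 1 J, hh (1 / 2 ^ j * x)) / J := by
  unfold Pool.Agent.TH850.NR.phi
  congr 1
  refine Finset.sum_congr rfl fun j _ => ?_
  rw [← sinc_hh]
  congr 2
  ring

lemma phi_mass (J : ℕ) : ∫ x, phi J x = cc J := by
  simp_rw [phi_hh]
  rw [integral_div, integral_finsetSum _ fun j _ => hh_sc_int (by positivity)]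
  unfold Pool.Agent.TH850.NR.cc
  rw [← sum_two]
  congr 1
  refine Finset.sum_congr rfl fun j _ => ?_
  rw [hh_mass (by positivity)]
  simp

lemma prod_int (J : ℕ) (hJ : 1 ≤ J) : Integrable (Function.uncurry fun v s : ℝ => phi J (v + s))
    (volume.prod (volume.restrict (Ioc (-(1 / 2 : ℝ)) (1 / 2)))) := by
  have hc : Continuous (Function.uncurry fun v s : ℝ => phi J (v + s)) :=
    (phi_cont J).comp continuous_add
  rw [integrable_prod_iff' hc.aestronglyMeasurable]
  constructor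
  · exact Eventually.of_forall fun s => (phi_integrable J hJ).comp_add_right s
  · have h1 : ∀ s : ℝ, ∫ v, ‖Function.uncurry (fun v s : ℝ => phi J (v + s)) (v, s)‖ = cc J := by
      intro s
      have h2 : ∀ v : ℝ, ‖Function.uncurry (fun v s : ℝ => phi J (v + s)) (v, s)‖ = phi J (v + s) :=
        fun v => Real.norm_of_nonneg (phi_nonneg _ _)
      simp_rw [h2]
      rw [integral_add_right_eq_self (fun v => phi J v) s, phi_mass]
    simp_rw [h1]
    exact integrable_const _

lemma WJ_mass (J : ℕ) (hJ : 1 ≤ J) : ∫ v, WJ J v = cc J := by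
  have h1 : ∀ v, WJ J v = ∫ s in Ioc (-(1 / 2 : ℝ)) (1 / 2), phi J (v + s) := fun v => by
    unfold WJ
    rw [intervalIntegral.integral_of_le (by norm_num)]
  simp_rw [h1]
  rw [integral_integral_swap (prod_int J hJ)]
  have h2 : ∀ s : ℝ, ∫ v, phi J (v + s) = cc J := fun s => by
    rw [integral_add_right_eq_self (fun v => phi J v) s, phi_mass]
  simp_rw [h2]
  rw [setIntegral_const, Real.volume_real_Ioc_of_le (by norm_num), smul_eq_mul]
  norm_num

lemma WJ_int (J : ℕ) (hJ : 1 ≤ J) : Integrable (WJ J) := by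
  refine ((wi (lam := 1) one_pos).const_mul (2 * (1 + 4 ^ J / (7 * (J : ℝ))))).mono'
    (WJ_cont J).aestronglyMeasurable (Eventually.of_forall fun v => ?_)
  rw [Real.norm_eq_abs, one_mul, mul_one_div, le_div_iff₀ (by positivity)]
  exact WJ_decay J hJ v

/-- **the sum rule at scale `J`** -/
theorem rule_J (RH : RiemannHypothesis) (hRH : RHs) (m : ℕ) {x y : Fin m → ℝ} (hxy : ∀ i, x i ≤ y i) :
    ∃ C : ℝ, 0 < C ∧ ∀ l : Filter ℝ, l.NeBot → l ≤ atTop → ∀ g' : (Fin (m + 1) → ℝ) → ℝ,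
      Continuous g' → (∃ M : ℝ, ∀ w, |g' w| ≤ M) → ∀ g : (Fin m → ℝ) → ℝ, LG l (m + 1) g' → LG l m g →
      ∀ J : ℕ, 1 ≤ J → |(∫ v, WJ J v * ∫ u in Icc x y, g' (Fin.cons v u : Fin (m + 1) → ℝ)) -
        (cc J - (m + 1)) * ∫ u in Icc x y, g u| ≤ C / Real.sqrt J := by
  obtain ⟨R, hR⟩ : ∃ R : ℕ, ∀ i, -(R : ℝ) ≤ x i ∧ y i ≤ R := by
    obtain ⟨R, hR⟩ := exists_nat_ge (∑ i, (|x i| + |y i|))
    refine ⟨R, fun i => ?_⟩
    have h1 : |x i| + |y i| ≤ ∑ i, (|x i| + |y i|) :=
      Finset.single_le_sum (f := fun i => |x i| + |y i|) (fun j _ => by positivity) (Finset.mem_univ i)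
    have h2 := neg_abs_le (x i)
    have h3 := le_abs_self (y i)
    have h4 := abs_nonneg (x i)
    have h5 := abs_nonneg (y i)
    constructor <;> linarith
  obtain ⟨C, hC, hscr⟩ := screening RH hRH m R
  have hpi := Real.pi_pos
  refine ⟨2 * Real.pi * C, by positivity, fun l hn hl g' hg' hM g h' h J hJ => ?_⟩
  obtain ⟨M, hM⟩ := hM
  have h1 := Scr_lim hRH hl hg' hM h' hxy (WJ_cont J) (WJ_decay J hJ)
  have h2 := (h x y hxy).const_mul (cc J - (m + 1))
  have h3 := (h1.sub h2).abs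
  refine le_of_tendsto h3 ?_
  filter_upwards [hl (hscr J hJ), hl (eventually_gt_atTop (1 : ℝ))] with T k1 hT
  have hX : 0 < XT T := by
    unfold Pool.Agent.K4H58.DR.XT
    have := Real.log_pos hT
    positivity
  have h4 := k1 x y hR
  rw [Scr_Ix] at h4
  rw [← mul_div_assoc, ← sub_div, abs_div, abs_of_pos hX, div_le_iff₀ hX]
  refine h4.trans (le_of_eq ?_)
  unfold Pool.Agent.K4H58.DR.XT
  field_simp

/-- **perfect screening** -/
theorem rule (RH : RiemannHypothesis) (hRH : RHs) (m : ℕ) {x y : Fin m → ℝ} (hxy : ∀ i, x i ≤ y i)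
    {l : Filter ℝ} [hn : l.NeBot] (hl : l ≤ atTop) {g' : (Fin (m + 1) → ℝ) → ℝ} (hg' : Continuous g')
    (hM : ∃ M : ℝ, ∀ w, |g' w| ≤ M) {g : (Fin m → ℝ) → ℝ} (h' : LG l (m + 1) g') (h : LG l m g)
    (hint : Integrable fun v : ℝ =>
      (∫ u in Icc x y, g' (Fin.cons v u : Fin (m + 1) → ℝ)) - ∫ u in Icc x y, g u) :
    ∫ v : ℝ, ((∫ u in Icc x y, g' (Fin.cons v u : Fin (m + 1) → ℝ)) - ∫ u in Icc x y, g u) =
      -(m + 1) * ∫ u in Icc x y, g u := by
  obtain ⟨C, hC, hr⟩ := rule_J RH hRH m hxy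
  obtain ⟨G, hG⟩ : ∃ G, G = ∫ u in Icc x y, g u := ⟨_, rfl⟩
  obtain ⟨H, hH⟩ : ∃ H : ℝ → ℝ, H = fun v => ∫ u in Icc x y, g' (Fin.cons v u : Fin (m + 1) → ℝ) :=
    ⟨_, rfl⟩
  have hH' : ∀ v, ∫ u in Icc x y, g' (Fin.cons v u : Fin (m + 1) → ℝ) = H v := fun v => by rw [hH]
  simp only [hH', ← hG] at hint hr ⊢
  have hr' := hr l hn hl g' hg' hM g h' h
  simp only [hH', ← hG] at hr'
  -- the weighted integrals
  have h1 : ∀ J : ℕ, 1 ≤ J → ∫ v, WJ J v * (H v - G) = (∫ v, WJ J v * H v) - cc J * G := by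
    intro J hJ
    have hWd : Integrable fun v => WJ J v * (H v - G) := by
      refine hint.norm.mono' ((WJ_cont J).aestronglyMeasurable.mul hint.1)
        (Eventually.of_forall fun v => ?_)
      rw [norm_mul]
      refine mul_le_of_le_one_left (norm_nonneg _) ?_
      rw [Real.norm_of_nonneg (WJ_nonneg J v)]
      exact WJ_le_one J hJ v
    have hWG : Integrable fun v => WJ J v * G := (WJ_int J hJ).mul_const G
    have h2 : ∫ v, WJ J v * H v = (∫ v, WJ J v * (H v - G)) + ∫ v, WJ J v * G := by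
      rw [← integral_add hWd hWG]
      refine integral_congr_ae (Eventually.of_forall fun v => ?_)
      show WJ J v * H v = WJ J v * (H v - G) + WJ J v * G
      ring
    rw [h2, integral_mul_const, WJ_mass J hJ]
    ring
  have h2 : Tendsto (fun J : ℕ => ∫ v, WJ J v * (H v - G)) atTop (𝓝 (∫ v, (H v - G))) := by
    refine tendsto_integral_filter_of_dominated_convergence (fun v => ‖H v - G‖) ?_ ?_ hint.norm ?_
    · exact Eventually.of_forall fun J => (WJ_cont J).aestronglyMeasurable.mul hint.1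
    · filter_upwards [eventually_ge_atTop 1] with J hJ
      refine Eventually.of_forall fun v => ?_
      rw [norm_mul]
      refine mul_le_of_le_one_left (norm_nonneg _) ?_
      rw [Real.norm_of_nonneg (WJ_nonneg J v)]
      exact WJ_le_one J hJ v
    · refine Eventually.of_forall fun v => ?_
      have h3 : Tendsto (fun J : ℕ => WJ J v) atTop (𝓝 1) := by
        have h4 : Tendsto (fun J : ℕ => 1 - Real.pi ^ 2 * (|v| + 1) ^ 2 / (9 * (J : ℝ))) atTop (𝓝 (1 - 0)) := by
          refine tendsto_const_nhds.sub ?_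
          exact tendsto_const_nhds.div_atTop
            ((tendsto_natCast_atTop_atTop).const_mul_atTop (by norm_num))
        rw [sub_zero] at h4
        refine tendsto_of_tendsto_of_tendsto_of_le_of_le' h4 tendsto_const_nhds ?_ ?_
        · filter_upwards [eventually_ge_atTop 1] with J hJ
          have := one_sub_WJ J hJ (le_refl |v|)
          linarith
        · filter_upwards [eventually_ge_atTop 1] with J hJ
          exact WJ_le_one J hJ v
      have h5 := h3.mul_const (H v - G)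
      rwa [one_mul] at h5
  have h3 : Tendsto (fun J : ℕ => ∫ v, WJ J v * (H v - G)) atTop (𝓝 (-(m + 1) * G)) := by
    rw [Metric.tendsto_atTop]
    intro ε hε
    have h4 : Tendsto (fun J : ℕ => C / Real.sqrt (J : ℝ)) atTop (𝓝 0) := by
      refine tendsto_const_nhds.div_atTop ?_
      exact Real.tendsto_sqrt_atTop.comp tendsto_natCast_atTop_atTop
    obtain ⟨N, hN⟩ := eventually_atTop.1 ((h4.eventually_lt_const hε).and (eventually_ge_atTop 1))
    refine ⟨N, fun J hJ => ?_⟩
    obtain ⟨k1, k2⟩ := hN J hJ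
    rw [Real.dist_eq, h1 J k2]
    have h5 := hr' J k2
    have h6 : (∫ v, WJ J v * H v) - cc J * G - -(m + 1) * G =
        (∫ v, WJ J v * H v) - (cc J - (m + 1)) * G := by ring
    rw [h6]
    exact h5.trans_lt k1
  exact tendsto_nhds_unique h2 h3

end

end Pool.Agent.K4H58.SC
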