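import Pool.Agent.K4H58.SC.Rule

/-! # The sum over the additional zeros as a sum over a set -/

set_option autoImplicit false

namespace Pool.Agent.K4H58.SC

open Filter Topology MeasureTheory Set
open SG (ord NZ zmult)
open Pool.Agent.R320.KL
open Pool.Agent.K4H58.KL (sc Fb mem_Fb)

noncomputable section

lemma finsum_Ix {m : ℕ} (T : ℝ) (x y : Fin m → ℝ) (ψ : ℝ → ℝ) :
    ∑ᶠ p ∈ {p : (Option (Fin m) → ℕ) × ℕ | (Function.Injective p.1 ∧ (∀ i, 1 ≤ p.1 i ∧ ord (p.1 i) ≤ T) ∧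
      ∀ i, (ord (p.1 (some i)) - ord (p.1 none)) * (Real.log T / (2 * Real.pi)) ∈ Icc (x i) (y i)) ∧
      (1 ≤ p.2 ∧ ord p.2 ≤ T) ∧ ∀ i, p.1 i ≠ p.2},
      ψ ((ord p.2 - ord (p.1 none)) * (Real.log T / (2 * Real.pi))) = ∑ i ∈ Ix T x y, ψ (zx T i) := by
  classical
  obtain ⟨g, hg⟩ : ∃ g : (Σ _ : ℕ, Σ _ : (Fin m → ℕ), ℕ) → (Option (Fin m) → ℕ) × ℕ,
    g = fun z => (fun o => o.elim z.1 z.2.1, z.2.2) := ⟨_, rfl⟩
  have hginj : Function.Injective g := by
    rintro ⟨n, f, k⟩ ⟨n', f', k'⟩ h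
    rw [hg] at h
    have h0 := congrArg Prod.fst h
    have h1 : n = n' := congrFun h0 none
    have h2 : f = f' := funext fun i => congrFun h0 (some i)
    have h3 : k = k' := congrArg Prod.snd h
    subst h1 h2 h3
    rfl
  have hset : {p : (Option (Fin m) → ℕ) × ℕ | (Function.Injective p.1 ∧
      (∀ i, 1 ≤ p.1 i ∧ ord (p.1 i) ≤ T) ∧
      ∀ i, (ord (p.1 (some i)) - ord (p.1 none)) * (Real.log T / (2 * Real.pi)) ∈ Icc (x i) (y i)) ∧
      (1 ≤ p.2 ∧ ord p.2 ≤ T) ∧ ∀ i, p.1 i ≠ p.2} =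
      (((Ix T x y).image g : Finset _) : Set ((Option (Fin m) → ℕ) × ℕ)) := by
    ext p
    obtain ⟨j, k⟩ := p
    simp only [mem_ofPred_eq, Finset.coe_image, mem_image, Finset.mem_coe]
    constructor
    · rintro ⟨⟨h1, h2, h3⟩, ⟨h4, h5⟩, h6⟩
      refine ⟨⟨j none, fun i => j (some i), k⟩, ?_, ?_⟩
      · unfold Ix
        simp only [Finset.mem_sigma]
        refine ⟨?_, ?_, ?_⟩
        · rw [Finset.mem_Icc]
          exact ⟨(h2 none).1, (SG.ord_le_iff (h2 none).1 _).mp (h2 none).2⟩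
        · rw [mem_Fb]
          refine ⟨fun i => ?_, fun a b hab => by simpa using h1 hab⟩
          unfold Cs
          rw [Finset.mem_filter, Finset.mem_Icc]
          refine ⟨⟨(h2 (some i)).1, (SG.ord_le_iff (h2 (some i)).1 _).mp (h2 (some i)).2⟩, ?_, h3 i⟩
          intro h7
          have := h1 h7
          simp at this
        · rw [Finset.mem_sdiff, Finset.mem_Icc, Finset.mem_insert, Finset.mem_image, not_or]
          refine ⟨⟨h4, (SG.ord_le_iff h4 _).mp h5⟩, fun h7 => h6 none h7.symm, ?_⟩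
          rintro ⟨i, -, hi⟩
          exact h6 (some i) hi
      · rw [hg]
        refine Prod.ext ?_ rfl
        funext o
        cases o <;> rfl
    · rintro ⟨⟨n, f, k'⟩, h1, h0⟩
      rw [hg] at h0
      have hj : (fun o : Option (Fin m) => o.elim n f) = j := congrArg Prod.fst h0
      have hk : k' = k := congrArg Prod.snd h0
      subst hj hk
      unfold Ix at h1
      simp only [Finset.mem_sigma] at h1
      obtain ⟨h2, h3, h4⟩ := h1
      rw [mem_Fb] at h3
      rw [Finset.mem_Icc] at h2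
      rw [Finset.mem_sdiff, Finset.mem_Icc, Finset.mem_insert, Finset.mem_image, not_or] at h4
      have h5 : ∀ i, (1 ≤ f i ∧ f i ≤ NZ T) ∧ f i ≠ n ∧
          (ord (f i) - ord n) * (Real.log T / (2 * Real.pi)) ∈ Icc (x i) (y i) := by
        intro i
        have := h3.1 i
        unfold Cs at this
        rw [Finset.mem_filter, Finset.mem_Icc] at this
        exact this
      refine ⟨⟨?_, ?_, fun i => (h5 i).2.2⟩, ⟨h4.1.1, (SG.ord_le_iff h4.1.1 _).mpr h4.1.2⟩, ?_⟩
      · rintro (_ | a) (_ | b) hab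
        · rfl
        · exact absurd hab.symm (h5 b).2.1
        · exact absurd hab (h5 a).2.1
        · exact congrArg some (h3.2 hab)
      · rintro (_ | a)
        · exact ⟨h2.1, (SG.ord_le_iff h2.1 _).mpr h2.2⟩
        · exact ⟨(h5 a).1.1, (SG.ord_le_iff (h5 a).1.1 _).mpr (h5 a).1.2⟩
      · rintro (_ | a) h7
        · exact h4.2.1 h7.symm
        · exact h4.2.2 ⟨a, Finset.mem_univ a, h7⟩
  rw [hset, finsum_mem_coe_finset, Finset.sum_image fun a _ b _ h => hginj h]
  refine Finset.sum_congr rfl fun i _ => ?_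
  rw [hg]
  rfl

end

end Pool.Agent.K4H58.SC
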