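import Pool.Agent.K4H58.SC.Tup
import Pool.Agent.K4H58.SC.ClaimA2

/-! # The mean square of the linear statistic, on RH -/

set_option autoImplicit false

namespace Pool.Agent.K4H58.SC

open Filter Topology MeasureTheory Set
open SG (ord NZ zmult)
open SP (RHs)
open Pool.Agent.TH850.NR (phi tri cc phi_nonneg phi_decay phi_le_one phi_cont cc_nonneg)
open Pool.Agent.TH850.UR (phiC HT HT_re_cont)
open Pool.Agent.R320.KL
open Pool.Agent.K4H58.KL (sc)

noncomputable section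

/-- one dyadic block at a fixed depth -/
theorem blk (RH : RiemannHypothesis) : ∃ C6 : ℝ, 0 < C6 ∧ ∀ J : ℕ, 1 ≤ J → ∀ ε : ℝ, 0 < ε → ∀ i : ℕ,
    ∀ᶠ T : ℝ in atTop, ∫ t in (T / 2 ^ (i + 1) + Real.log (T / 2 ^ (i + 1)))..(T / 2 ^ i -
      Real.log (T / 2 ^ (i + 1))), (SJ J T t - cc J) ^ 2 ≤ (C6 / J + ε) * (T / 2 ^ (i + 1)) ∧
      T / 2 ^ (i + 1) + Real.log (T / 2 ^ (i + 1)) ≤ T / 2 ^ i - Real.log (T / 2 ^ (i + 1)) := by
  obtain ⟨C6, hC6, hA⟩ := claimA2
  refine ⟨3 * C6, by positivity, fun J hJ ε hε i => ?_⟩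
  have hJ' : (0 : ℝ) < J := by exact_mod_cast hJ
  have hcc := cc_nonneg J
  obtain ⟨T0, hT0, hA⟩ := hA J hJ (ε / 9) (by positivity)
  obtain ⟨K, hK, hpw⟩ := pw RH J hJ
  have h2i : (0 : ℝ) < 2 ^ (i + 1) := by positivity
  have hVt : Tendsto (fun T : ℝ => T / 2 ^ (i + 1)) atTop atTop := tendsto_id.atTop_div_const h2i
  -- the logarithms
  have hlog := Real.tendsto_log_atTop
  have hlr : Tendsto (fun T : ℝ => Real.log (T / 2 ^ (i + 1)) / Real.log T) atTop (𝓝 1) := by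
    have h1 : Tendsto (fun T : ℝ => 1 - Real.log (2 ^ (i + 1)) / Real.log T) atTop (𝓝 (1 - 0)) :=
      tendsto_const_nhds.sub (tendsto_const_nhds.div_atTop hlog)
    rw [sub_zero] at h1
    refine h1.congr' ?_
    filter_upwards [eventually_gt_atTop 1] with T hT
    have hL := Real.log_pos hT
    rw [Real.log_div (by linarith) h2i.ne']
    field_simp
  have e1 : ∀ᶠ T : ℝ in atTop, 20 / 21 ≤ Real.log (T / 2 ^ (i + 1)) / Real.log T :=
    hlr.eventually_const_le (by norm_num)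
  have e2 : ∀ᶠ T : ℝ in atTop, 3 * ((K / Real.log T) ^ 2) ≤ ε / 3 := by
    have h1 : Tendsto (fun T : ℝ => 3 * ((K / Real.log T) ^ 2)) atTop (𝓝 (3 * (0 ^ 2))) :=
      ((tendsto_const_nhds.div_atTop hlog).pow 2).const_mul 3
    exact h1.eventually_le_const (by rw [zero_pow two_ne_zero, mul_zero]; positivity)
  have e3 : ∀ᶠ T : ℝ in atTop,
      3 * ((1 - Real.log (T / 2 ^ (i + 1)) / Real.log T) ^ 2 * cc J ^ 2) ≤ ε / 3 := by
    have h1 : Tendsto (fun T : ℝ => 3 * ((1 - Real.log (T / 2 ^ (i + 1)) / Real.log T) ^ 2 * cc J ^ 2))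
        atTop (𝓝 (3 * ((1 - 1) ^ 2 * cc J ^ 2))) :=
      (((tendsto_const_nhds.sub hlr).pow 2).mul_const _).const_mul 3
    refine h1.eventually_le_const ?_
    rw [sub_self, zero_pow two_ne_zero, zero_mul, mul_zero]
    positivity
  filter_upwards [e1, e2, e3, hVt.eventually_ge_atTop T0, eventually_ge_atTop (10 : ℝ)] with
    T k1 k2 k3 k4 hT10
  obtain ⟨V, hV⟩ : ∃ V, V = T / 2 ^ (i + 1) := ⟨_, rfl⟩
  have hV2 : T / 2 ^ i = 2 * V := by
    rw [hV, pow_succ]
    field_simp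
  rw [← hV] at k1 k3 k4 ⊢
  rw [hV2]
  have hL : 0 < Real.log T := Real.log_pos (by linarith)
  have hV10 : 10 ≤ V := hT0.trans k4
  have hV0 : 0 < V := by linarith
  have hLV : 0 < Real.log V := Real.log_pos (by linarith)
  have hVT : 2 * V ≤ T := by
    rw [← hV2]
    exact div_le_self (by linarith) (one_le_pow₀ (by norm_num))
  have hll : Real.log V ≤ Real.log T := Real.log_le_log hV0 (by linarith)
  have hl2 : Real.log T ≤ 21 / 20 * Real.log V := by
    rw [le_div_iff₀ hL] at k1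
    linarith
  obtain ⟨U1, U2, hU1, hU1', hU2, hU2', hle, hint⟩ := hA V k4 (Real.log T) hll hl2
  refine ⟨?_, hle⟩
  have hLV1 : 1 ≤ Real.log V := by
    rw [← Real.log_exp 1]
    exact Real.log_le_log (Real.exp_pos 1) (by linarith [Real.exp_one_lt_d9])
  have hLV2 : 2 ≤ Real.log V := by
    have h1 : Real.exp 2 ≤ V := by
      have : Real.exp 2 = Real.exp 1 * Real.exp 1 := by rw [← Real.exp_add]; norm_num
      rw [this]
      have h2 := Real.exp_one_lt_d9
      have h3 := Real.exp_pos 1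
      nlinarith
    rw [← Real.log_exp 2]
    exact Real.log_le_log (Real.exp_pos 2) h1
  have hU1one : 1 ≤ U1 := by linarith
  have hHc := HT_re_cont J (Real.log T) (U2 := U2) hU1one
  have hSc := SJ_cont J T
  obtain ⟨b, hb⟩ : ∃ b, b = Real.log V / Real.log T := ⟨_, rfl⟩
  rw [← hb] at hint k3
  have hpt : ∀ t ∈ Icc (V + Real.log V) (2 * V - Real.log V), (SJ J T t - cc J) ^ 2 ≤
      3 * (2 * (HT J (Real.log T) U1 U2 t).re - b * cc J) ^ 2 + 2 * ε / 3 := by
    intro t ht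
    have h1 := hpw T hT10 U1 U2 t hU1one (by linarith [ht.1]) (by linarith [ht.2]) (by linarith)
    obtain ⟨p, hp⟩ : ∃ p, p = SJ J T t - 2 * (HT J (Real.log T) U1 U2 t).re := ⟨_, rfl⟩
    obtain ⟨q, hq⟩ : ∃ q, q = 2 * (HT J (Real.log T) U1 U2 t).re - b * cc J := ⟨_, rfl⟩
    rw [← hp] at h1
    rw [← hq]
    have h2 : SJ J T t - cc J = p + q - (1 - b) * cc J := by rw [hp, hq]; ring
    have h3 : p ^ 2 ≤ (K / Real.log T) ^ 2 := by
      rw [← sq_abs]
      exact pow_le_pow_left₀ (abs_nonneg _) h1 2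
    have h4 : (p + q - (1 - b) * cc J) ^ 2 ≤ 3 * p ^ 2 + 3 * q ^ 2 + 3 * ((1 - b) ^ 2 * cc J ^ 2) := by
      nlinarith [sq_nonneg (p - q), sq_nonneg (p + (1 - b) * cc J), sq_nonneg (q + (1 - b) * cc J)]
    rw [h2]
    linarith
  calc ∫ t in (V + Real.log V)..(2 * V - Real.log V), (SJ J T t - cc J) ^ 2 ≤
      ∫ t in (V + Real.log V)..(2 * V - Real.log V),
        (3 * (2 * (HT J (Real.log T) U1 U2 t).re - b * cc J) ^ 2 + 2 * ε / 3) :=
        intervalIntegral.integral_mono_on hle (Continuous.intervalIntegrable (by fun_prop) _ _)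
          (Continuous.intervalIntegrable (by fun_prop) _ _) hpt
    _ = 3 * (∫ t in (V + Real.log V)..(2 * V - Real.log V),
        (2 * (HT J (Real.log T) U1 U2 t).re - b * cc J) ^ 2) +
        (2 * V - Real.log V - (V + Real.log V)) * (2 * ε / 3) := by
        rw [intervalIntegral.integral_add (Continuous.intervalIntegrable (by fun_prop) _ _)
          (Continuous.intervalIntegrable (by fun_prop) _ _), intervalIntegral.integral_const_mul,
          intervalIntegral.integral_const, smul_eq_mul]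
    _ ≤ 3 * ((C6 / J + ε / 9) * V) + V * (2 * ε / 3) := by
        have : 2 * V - Real.log V - (V + Real.log V) ≤ V := by linarith
        gcongr
    _ = _ := by ring

/-- **the mean square of the linear statistic** -/
theorem sms (RH : RiemannHypothesis) (hRH : RHs) : ∃ C : ℝ, 0 < C ∧ ∀ J : ℕ, 1 ≤ J → ∀ ε : ℝ, 0 < ε →
    ∀ᶠ T : ℝ in atTop, ∫ t in (0 : ℝ)..(T + 1), (SJ J T t - cc J) ^ 2 ≤ (C / J + ε) * T := by
  obtain ⟨C6, hC6, hblk⟩ := blk RH
  refine ⟨C6, hC6, fun J hJ ε hε => ?_⟩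
  have hJ' : (0 : ℝ) < J := by exact_mod_cast hJ
  obtain ⟨δ, hδ, hs⟩ := short hRH J hJ (by positivity : 0 < ε / 4)
  obtain ⟨r, hr⟩ : ∃ r : ℕ, (1 / 2 : ℝ) ^ r < δ := exists_pow_lt_of_lt_one hδ (by norm_num)
  obtain ⟨δ', hδ', hs'⟩ := short hRH J hJ (by positivity : 0 < ε / (8 * (r + 1)))
  have hb : ∀ᶠ T : ℝ in atTop, ∀ i ∈ Finset.range r, ∫ t in (T / 2 ^ (i + 1) +
      Real.log (T / 2 ^ (i + 1)))..(T / 2 ^ i - Real.log (T / 2 ^ (i + 1))), (SJ J T t - cc J) ^ 2 ≤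
      (C6 / J + ε / 4) * (T / 2 ^ (i + 1)) ∧
      T / 2 ^ (i + 1) + Real.log (T / 2 ^ (i + 1)) ≤ T / 2 ^ i - Real.log (T / 2 ^ (i + 1)) := by
    rw [eventually_all_finset]
    exact fun i _ => hblk J hJ _ (by positivity) i
  have e1 : ∀ᶠ T : ℝ in atTop, Real.log T ≤ δ' * T := by
    have h1 := Real.isLittleO_log_id_atTop.bound hδ'
    filter_upwards [h1, eventually_ge_atTop 1] with T hT hT1
    have h2 : ‖id T‖ = T := Real.norm_of_nonneg (by simpa using zero_le_one.trans hT1)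
    rw [h2] at hT
    exact (le_abs_self _).trans hT
  have e2 : ∀ᶠ T : ℝ in atTop, 1 ≤ δ' * T := (tendsto_id.const_mul_atTop hδ').eventually_ge_atTop 1
  have e4 : ∀ᶠ T : ℝ in atTop, (1 : ℝ) ≤ T / 2 ^ r :=
    (tendsto_id.atTop_div_const (by positivity)).eventually_ge_atTop 1
  filter_upwards [hs, hs', hb, e1, e2, e4, eventually_ge_atTop (10 : ℝ)] with T k1 k2 k3 k4 k5 k7 hT
  have hT0 : 0 < T := by linarith
  have hSc := SJ_cont J T
  obtain ⟨F, hF⟩ : ∃ F : ℝ → ℝ, F = fun t => (SJ J T t - cc J) ^ 2 := ⟨_, rfl⟩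
  have hFc : Continuous F := by rw [hF]; fun_prop
  have hFi : ∀ a b, IntervalIntegrable F volume a b := fun a b => hFc.intervalIntegrable a b
  have hF' : ∀ a b, ∫ t in a..b, (SJ J T t - cc J) ^ 2 = ∫ t in a..b, F t := fun a b => by rw [hF]
  simp only [hF'] at k1 k2 k3 ⊢
  -- the start
  have hstart : ∫ t in (0 : ℝ)..(T / 2 ^ r), F t ≤ ε / 4 * T := by
    refine k1 0 _ le_rfl (by positivity) ?_ ?_
    · have : T / 2 ^ r ≤ T := div_le_self hT0.le (one_le_pow₀ (by norm_num))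
      linarith
    · rw [sub_zero, div_eq_mul_inv, ← inv_pow, mul_comm]
      have h1 : ((2 : ℝ)⁻¹) ^ r = (1 / 2) ^ r := by norm_num
      rw [h1]
      exact mul_le_mul_of_nonneg_right hr.le hT0.le
  -- the end
  have hend : ∫ t in T..(T + 1), F t ≤ ε / (8 * (r + 1)) * T :=
    k2 T (T + 1) hT0.le (by linarith) le_rfl (by linarith)
  -- one block
  have hone : ∀ i ∈ Finset.range r, ∫ t in (T / 2 ^ (i + 1))..(T / 2 ^ i), F t ≤
      (C6 / J + ε / 4) * (T / 2 ^ (i + 1)) + 2 * (ε / (8 * (r + 1)) * T) := by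
    intro i hi
    have hir : i + 1 ≤ r := Finset.mem_range.1 hi
    obtain ⟨b1, b2⟩ := k3 i hi
    obtain ⟨V, hV⟩ : ∃ V, V = T / 2 ^ (i + 1) := ⟨_, rfl⟩
    obtain ⟨W, hW⟩ : ∃ W, W = T / 2 ^ i := ⟨_, rfl⟩
    rw [← hV, ← hW] at b1 b2 ⊢
    have hVr : T / 2 ^ r ≤ V := by
      rw [hV]
      exact div_le_div_of_nonneg_left hT0.le (by positivity) (pow_le_pow_right₀ (by norm_num) hir)
    have hV1 : 1 ≤ V := k7.trans hVr
    have hWT : W ≤ T := by rw [hW]; exact div_le_self hT0.le (one_le_pow₀ (by norm_num))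
    have hVT : V ≤ T := by rw [hV]; exact div_le_self hT0.le (one_le_pow₀ (by norm_num))
    have hLV : 0 ≤ Real.log V := Real.log_nonneg hV1
    have hLVT : Real.log V ≤ δ' * T := (Real.log_le_log (by linarith) hVT).trans k4
    have h1 := k2 V (V + Real.log V) (by linarith) (by linarith) (by linarith) (by linarith)
    have h2 := k2 (W - Real.log V) W (by linarith) (by linarith) (by linarith) (by linarith)
    have h3 : ∫ t in V..W, F t = (∫ t in V..(V + Real.log V), F t) +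
        (∫ t in (V + Real.log V)..(W - Real.log V), F t) + ∫ t in (W - Real.log V)..W, F t := by
      rw [intervalIntegral.integral_add_adjacent_intervals (hFi _ _) (hFi _ _),
        intervalIntegral.integral_add_adjacent_intervals (hFi _ _) (hFi _ _)]
    rw [h3]
    linarith
  -- the sum
  have hsum : ∀ q : ℕ, q ≤ r → ∫ t in (T / 2 ^ q)..T, F t ≤
      (C6 / J + ε / 4) * (T - T / 2 ^ q) + q * (2 * (ε / (8 * (r + 1)) * T)) := by
    intro q
    induction q with
    | zero =>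
      intro _
      simp
    | succ q ih =>
      intro hq
      have h1 := ih (by omega)
      have h2 := hone q (Finset.mem_range.2 (by omega))
      rw [← intervalIntegral.integral_add_adjacent_intervals (hFi (T / 2 ^ (q + 1)) (T / 2 ^ q))
        (hFi (T / 2 ^ q) T)]
      have h3 : T / 2 ^ q = 2 * (T / 2 ^ (q + 1)) := by
        rw [pow_succ]
        field_simp
      push_cast
      rw [h3] at h1 h2 ⊢
      linarith
  have hr' := hsum r le_rfl
  rw [← intervalIntegral.integral_add_adjacent_intervals (hFi 0 (T / 2 ^ r)) (hFi (T / 2 ^ r) (T + 1)),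
    ← intervalIntegral.integral_add_adjacent_intervals (hFi (T / 2 ^ r) T) (hFi T (T + 1))]
  have h5 : (C6 / J + ε / 4) * (T - T / 2 ^ r) ≤ (C6 / J + ε / 4) * T := by
    have : 0 < T / 2 ^ r := by positivity
    have h6 : T - T / 2 ^ r ≤ T := by linarith
    exact mul_le_mul_of_nonneg_left h6 (by positivity)
  have h7 : (r : ℝ) * (2 * (ε / (8 * (r + 1)) * T)) + ε / (8 * (r + 1)) * T ≤ ε / 4 * T := by
    have hr0 : (0 : ℝ) ≤ r := Nat.cast_nonneg r
    have h8 : (r : ℝ) * (2 * (ε / (8 * (r + 1)) * T)) + ε / (8 * (r + 1)) * T =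
        (2 * r + 1) / (2 * (r + 1)) * (ε / 4 * T) := by
      field_simp
      ring
    rw [h8]
    refine mul_le_of_le_one_left (by positivity) ?_
    rw [div_le_one (by positivity)]
    linarith
  have h9 : (C6 / J + ε) * T = (C6 / J + ε / 4) * T + 3 * (ε / 4 * T) := by ring
  have h10 : 0 < ε / 4 * T := by positivity
  rw [h9]
  linarith

/-- **the screening sum rule** -/
theorem screening (RH : RiemannHypothesis) (hRH : RHs) (m R : ℕ) : ∃ C : ℝ, 0 < C ∧ ∀ J : ℕ, 1 ≤ J →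
    ∀ᶠ T : ℝ in atTop, ∀ x y : Fin m → ℝ, (∀ i, -(R : ℝ) ≤ x i ∧ y i ≤ R) →
      |Scr J T x y - (cc J - (m + 1)) * Nk T x y| ≤ C / Real.sqrt J * (T * Real.log T) := by
  obtain ⟨C1, hC1, h1⟩ := sms RH hRH
  obtain ⟨C2, hC2, h2⟩ := tup_bd hRH m R
  refine ⟨C2 * Real.sqrt (C1 + 1) + (m + 1) * (Real.pi ^ 2 * (R + 1) ^ 2 / 9) * C2, by positivity,
    fun J hJ => ?_⟩
  have hJ' : (0 : ℝ) < J := by exact_mod_cast hJ
  have hJ1 : (1 : ℝ) ≤ J := by exact_mod_cast hJ
  filter_upwards [h1 J hJ (1 / J) (by positivity), h2, eventually_gt_atTop 1] with T k1 k2 hT x y hxy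
  obtain ⟨A, hA⟩ : ∃ A, A = Real.sqrt ((C1 + 1) / J) := ⟨_, rfl⟩
  have hA0 : 0 < A := by rw [hA]; exact Real.sqrt_pos.2 (by positivity)
  have hA2 : A ^ 2 = C1 / J + 1 / J := by
    rw [hA, Real.sq_sqrt (by positivity)]
    ring
  rw [← hA2] at k1
  obtain ⟨k3, k4⟩ := k2 J hJ A hA0 k1 x y hxy
  have hL := Real.log_pos hT
  have hTL : 0 < T * Real.log T := by positivity
  have hsJ : 0 < Real.sqrt J := Real.sqrt_pos.2 hJ'
  have hA3 : A = Real.sqrt (C1 + 1) / Real.sqrt J := by rw [hA, Real.sqrt_div (by positivity)]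
  have hJs : 1 / (J : ℝ) ≤ 1 / Real.sqrt J := by
    refine one_div_le_one_div_of_le hsJ ?_
    rw [Real.sqrt_le_left (by positivity)]
    nlinarith
  have h5 := Scr_near J hJ (R := (R : ℝ)) (Nat.cast_nonneg R) (T := T) hxy
  refine h5.trans ?_
  calc _ ≤ C2 * A * (T * Real.log T) +
        (m + 1) * (Real.pi ^ 2 * (R + 1) ^ 2 / (9 * J)) * (C2 * (T * Real.log T)) := by
        gcongr
    _ = C2 * Real.sqrt (C1 + 1) / Real.sqrt J * (T * Real.log T) +
        (m + 1) * (Real.pi ^ 2 * (R + 1) ^ 2 / 9) * C2 * (T * Real.log T) * (1 / J) := by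
        rw [hA3]
        field_simp
    _ ≤ C2 * Real.sqrt (C1 + 1) / Real.sqrt J * (T * Real.log T) +
        (m + 1) * (Real.pi ^ 2 * (R + 1) ^ 2 / 9) * C2 * (T * Real.log T) * (1 / Real.sqrt J) := by
        gcongr
    _ = _ := by ring

end

end Pool.Agent.K4H58.SC
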