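import Pool.Agent.K4H58.SC.Mom
import Pool.Agent.K4H58.KL.Red

/-! # The linear statistic at the zeros of a tuple, on RH -/

set_option autoImplicit false

namespace Pool.Agent.K4H58.SC

open Filter Topology MeasureTheory Set
open SG (ord NZ zmult)
open SP (RHs)
open Pool.Agent.TH850.NR (phi tri cc phi_nonneg phi_decay phi_le_one phi_cont one_sub_phi)
open Pool.Agent.R320.KL
open Pool.Agent.K4H58.KL (sc Win Win_card Win_pow_integrable momW mem_Win Fb Fb_le mem_Fb Nk_fib
  integrable_sc ind_integrable int_sc)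

noncomputable section

/-- the averaged weight -/
def WJ (J : ℕ) (v : ℝ) : ℝ := ∫ s in (-(1 / 2 : ℝ))..(1 / 2), phi J (v + s)

lemma phi_sh_cont (J : ℕ) (v : ℝ) : Continuous fun s : ℝ => phi J (v + s) :=
  (phi_cont J).comp (by fun_prop)

lemma WJ_nonneg (J : ℕ) (v : ℝ) : 0 ≤ WJ J v :=
  intervalIntegral.integral_nonneg (by norm_num) fun s _ => phi_nonneg _ _

lemma WJ_le_one (J : ℕ) (hJ : 1 ≤ J) (v : ℝ) : WJ J v ≤ 1 := by
  unfold WJ
  calc ∫ s in (-(1 / 2 : ℝ))..(1 / 2), phi J (v + s) ≤ ∫ _s in (-(1 / 2 : ℝ))..(1 / 2), (1 : ℝ) :=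
        intervalIntegral.integral_mono_on (by norm_num) ((phi_sh_cont J v).intervalIntegrable _ _)
          intervalIntegrable_const fun s _ => phi_le_one J hJ _
    _ = 1 := by
        rw [intervalIntegral.integral_const]
        norm_num

lemma one_sub_WJ (J : ℕ) (hJ : 1 ≤ J) {v R : ℝ} (hv : |v| ≤ R) :
    1 - WJ J v ≤ Real.pi ^ 2 * (R + 1) ^ 2 / (9 * J) := by
  have hJ' : (0 : ℝ) < J := by exact_mod_cast hJ
  have hpi := Real.pi_pos
  have h1 : 1 - WJ J v = ∫ s in (-(1 / 2 : ℝ))..(1 / 2), (1 - phi J (v + s)) := by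
    rw [intervalIntegral.integral_sub intervalIntegrable_const
      ((phi_sh_cont J v).intervalIntegrable _ _), intervalIntegral.integral_const]
    unfold WJ
    norm_num
  rw [h1]
  calc ∫ s in (-(1 / 2 : ℝ))..(1 / 2), (1 - phi J (v + s)) ≤
      ∫ _s in (-(1 / 2 : ℝ))..(1 / 2), Real.pi ^ 2 * (R + 1) ^ 2 / (9 * J) := by
        refine intervalIntegral.integral_mono_on (by norm_num)
          ((continuous_const.sub (phi_sh_cont J v)).intervalIntegrable _ _)
          intervalIntegrable_const fun s hs => ?_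
        refine (one_sub_phi J hJ _).trans ?_
        have h2 : |v + s| ≤ R + 1 := by
          refine (abs_add_le _ _).trans (add_le_add hv ?_)
          rw [abs_le]
          constructor <;> linarith [hs.1, hs.2]
        have h3 : (v + s) ^ 2 ≤ (R + 1) ^ 2 := by
          rw [← sq_abs]
          exact pow_le_pow_left₀ (abs_nonneg _) h2 2
        gcongr
    _ = _ := by
        rw [intervalIntegral.integral_const]
        norm_num

/-- the scale -/
def κ (T : ℝ) : ℝ := Real.log T / (2 * Real.pi)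

lemma κ_pos {T : ℝ} (hT : 1 < T) : 0 < κ T := by
  unfold κ
  have := Real.log_pos hT
  have := Real.pi_pos
  positivity

/-- the full sum at a zero is an average of the linear statistic -/
lemma sum_WJ (J : ℕ) {T : ℝ} (hT : 1 < T) (n : ℕ) :
    ∑ l ∈ Finset.Icc 1 (NZ T), WJ J (sc T (ord n) l) =
      κ T * ∫ t in (ord n - 1 / 2 / κ T)..(ord n + 1 / 2 / κ T), SJ J T t := by
  have hk := κ_pos hT
  have h1 := intervalIntegral.integral_comp_sub_div (a := -(1 / 2 : ℝ)) (b := 1 / 2) (SJ J T) hk.ne'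
    (ord n)
  rw [smul_eq_mul, neg_div, sub_neg_eq_add] at h1
  rw [← h1]
  unfold WJ
  rw [← intervalIntegral.integral_finsetSum fun l _ => (phi_sh_cont J _).intervalIntegrable _ _]
  refine intervalIntegral.integral_congr fun s _ => ?_
  show ∑ l ∈ Finset.Icc 1 (NZ T), phi J (sc T (ord n) l + s) = SJ J T (ord n - s / κ T)
  unfold SJ
  refine Finset.sum_congr rfl fun l _ => ?_
  congr 1
  have h2 : sc T (ord n - s / κ T) l = sc T (ord n) l + s := by
    have h3 : ∀ t, sc T t l = (ord l - t) * κ T := fun t => rfl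
    rw [h3, h3]
    field_simp
    ring
  rw [h2]

/-- the observed tuples -/
def Gt {m : ℕ} (T : ℝ) (x y : Fin m → ℝ) (t : ℝ) : ℝ :=
  ∑ n ∈ Finset.Icc 1 (NZ T), ((Fb T x y n).card : ℝ) *
    (Icc (-(1 / 2 : ℝ)) (1 / 2)).indicator (1 : ℝ → ℝ) (sc T t n)

lemma Gt_nonneg {m : ℕ} (T : ℝ) (x y : Fin m → ℝ) (t : ℝ) : 0 ≤ Gt T x y t :=
  Finset.sum_nonneg fun _ _ => mul_nonneg (Nat.cast_nonneg _)
    (indicator_nonneg (fun _ _ => zero_le_one) _)

lemma Gt_le {m : ℕ} {T : ℝ} {R : ℕ} {x y : Fin m → ℝ} (h : ∀ i, -(R : ℝ) ≤ x i ∧ y i ≤ R) (t : ℝ) :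
    Gt T x y t ≤ ((Win (R + 1) T t).card : ℝ) ^ (m + 1) := by
  classical
  have h1 : ∀ n ∈ Finset.Icc 1 (NZ T), ((Fb T x y n).card : ℝ) *
      (Icc (-(1 / 2 : ℝ)) (1 / 2)).indicator (1 : ℝ → ℝ) (sc T t n) ≤
      (if n ∈ Win (R + 1) T t then ((Win (R + 1) T t).card : ℝ) ^ m else 0) := by
    intro n hn
    by_cases h2 : sc T t n ∈ Icc (-(1 / 2 : ℝ)) (1 / 2)
    · have hnW : n ∈ Win (R + 1) T t := by
        rw [mem_Win]
        refine ⟨hn, ?_⟩
        push_cast
        have : (0 : ℝ) ≤ R := Nat.cast_nonneg R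
        constructor <;> linarith [h2.1, h2.2]
      rw [indicator_of_mem h2, if_pos hnW]
      simp only [Pi.one_apply, mul_one]
      have h3 := Fb_le (T := T) h n
      have h4 : Cs T (-(R : ℝ)) R n ⊆ Win (R + 1) T t := by
        intro l hl
        unfold Cs at hl
        rw [Finset.mem_filter] at hl
        rw [mem_Win]
        refine ⟨hl.1, ?_⟩
        have h5 := hl.2.2
        rw [← Pool.Agent.K4H58.KL.sc_sub T t l n] at h5
        push_cast
        constructor <;> linarith [h5.1, h5.2, h2.1, h2.2]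
      have h5 := Finset.card_le_card h4
      exact_mod_cast h3.trans (Nat.pow_le_pow_left h5 m)
    · rw [indicator_of_notMem h2, mul_zero]
      split_ifs
      · positivity
      · exact le_rfl
  refine (Finset.sum_le_sum h1).trans ?_
  rw [← Finset.sum_filter, Finset.sum_const, nsmul_eq_mul]
  have h6 : ((Finset.Icc 1 (NZ T)).filter fun n => n ∈ Win (R + 1) T t) = Win (R + 1) T t := by
    ext n
    rw [Finset.mem_filter]
    constructor
    · exact fun h => h.2
    · exact fun h => ⟨(mem_Win.1 h).1, h⟩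
  rw [h6, pow_succ]
  exact le_of_eq (mul_comm _ _)

lemma Gt_meas {m : ℕ} (T : ℝ) (x y : Fin m → ℝ) : Measurable (Gt T x y) := by
  unfold Gt
  refine Finset.measurable_sum _ fun n _ => ?_
  refine measurable_const.mul ?_
  exact (measurable_one.indicator measurableSet_Icc).comp (Pool.Agent.K4H58.KL.sc_meas T n)

lemma cell_iff {T : ℝ} (hT : 1 < T) (n : ℕ) (t : ℝ) : sc T t n ∈ Icc (-(1 / 2 : ℝ)) (1 / 2) ↔
    t ∈ Icc (ord n - 1 / 2 / κ T) (ord n + 1 / 2 / κ T) := by
  have hk := κ_pos hT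
  have h1 : sc T t n = (ord n - t) * κ T := rfl
  rw [h1, mem_Icc, mem_Icc]
  constructor
  · rintro ⟨h2, h3⟩
    constructor
    · have : ord n - t ≤ 1 / 2 / κ T := by rw [le_div_iff₀ hk]; exact h3
      linarith
    · have : -(1 / 2 / κ T) ≤ ord n - t := by
        rw [← neg_div, div_le_iff₀ hk]; exact h2
      linarith
  · rintro ⟨h2, h3⟩
    constructor
    · rw [← div_le_iff₀ hk, neg_div]
      linarith
    · rw [← le_div_iff₀ hk]
      linarith

/-- **the linear statistic at the bases of the tuples** -/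
theorem tup_bd (hRH : RHs) (m R : ℕ) : ∃ C0 : ℝ, 0 < C0 ∧ ∀ᶠ T : ℝ in atTop, ∀ J : ℕ, 1 ≤ J →
    ∀ A : ℝ, 0 < A → ∫ t in (0 : ℝ)..(T + 1), (SJ J T t - cc J) ^ 2 ≤ A ^ 2 * T →
    ∀ x y : Fin m → ℝ, (∀ i, -(R : ℝ) ≤ x i ∧ y i ≤ R) →
      |∑ n ∈ Finset.Icc 1 (NZ T), ((Fb T x y n).card : ℝ) *
        (∑ l ∈ Finset.Icc 1 (NZ T), WJ J (sc T (ord n) l) - cc J)| ≤ C0 * A * (T * Real.log T) ∧
      (Nk T x y : ℝ) ≤ C0 * (T * Real.log T) := by
  obtain ⟨C1, hC1, hm1⟩ := momW hRH (R + 1) m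
  obtain ⟨C2, hC2, hm2⟩ := momW hRH (R + 1) (2 * m + 1)
  have hpi := Real.pi_gt_three
  refine ⟨max C1 (1 + C2), lt_max_of_lt_left hC1, ?_⟩
  have hTc : ∀ᶠ T : ℝ in atTop, 1 / 2 / κ T ≤ ord 1 ∧ 1 / 2 / κ T ≤ 1 := by
    have h1 : Tendsto (fun T : ℝ => 1 / 2 / κ T) atTop (𝓝 0) := by
      refine tendsto_const_nhds.div_atTop ?_
      unfold κ
      exact Real.tendsto_log_atTop.atTop_div_const (by positivity)
    exact (h1.eventually_le_const (SG.ord_pos le_rfl)).and (h1.eventually_le_const one_pos)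
  filter_upwards [hm1, hm2, hTc, eventually_gt_atTop 1] with T k1 k2 k3 hT J hJ A hA hms x y hxy
  have hk := κ_pos hT
  have hL := Real.log_pos hT
  have hkL : κ T ≤ Real.log T := by
    unfold κ
    rw [div_le_iff₀ (by positivity)]
    nlinarith
  have hSc := SJ_cont J T
  have hTL : 0 < T * Real.log T := by positivity
  -- the cells are inside
  have hcell : ∀ n ∈ Finset.Icc 1 (NZ T), 0 ≤ ord n - 1 / 2 / κ T ∧ ord n + 1 / 2 / κ T ≤ T + 1 := by
    intro n hn
    rw [Finset.mem_Icc] at hn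
    have h1 : ord 1 ≤ ord n := SG.ord_mono le_rfl hn.1
    have h2 := (SG.ord_le_iff hn.1 T).2 hn.2
    constructor <;> linarith [k3.1, k3.2]
  have hint : ∀ n ∈ Finset.Icc 1 (NZ T), ∀ h : ℝ → ℝ,
      ∫ t in (ord n - 1 / 2 / κ T)..(ord n + 1 / 2 / κ T), h t =
      ∫ t in Icc 0 (T + 1), h t * (Icc (-(1 / 2 : ℝ)) (1 / 2)).indicator (1 : ℝ → ℝ) (sc T t n) := by
    intro n hn h
    have hn2 := hcell n hn
    have hpos : 0 < 1 / 2 / κ T := by positivity
    rw [intervalIntegral.integral_of_le (by linarith), ← integral_Icc_eq_integral_Ioc]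
    have h1 : ∀ t, h t * (Icc (-(1 / 2 : ℝ)) (1 / 2)).indicator (1 : ℝ → ℝ) (sc T t n) =
        (Icc (ord n - 1 / 2 / κ T) (ord n + 1 / 2 / κ T)).indicator h t := by
      intro t
      by_cases h2 : sc T t n ∈ Icc (-(1 / 2 : ℝ)) (1 / 2)
      · rw [indicator_of_mem h2, indicator_of_mem ((cell_iff hT n t).1 h2)]
        simp
      · rw [indicator_of_notMem h2, indicator_of_notMem (fun h3 => h2 ((cell_iff hT n t).2 h3)),
          mul_zero]
    simp_rw [h1]
    rw [setIntegral_indicator measurableSet_Icc]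
    congr 2
    exact (inter_eq_right.2 (Icc_subset_Icc hn2.1 hn2.2)).symm
  -- integrability
  have hI1 : ∀ n, ∀ h : ℝ → ℝ, Continuous h → IntegrableOn (fun t => h t *
      (Icc (-(1 / 2 : ℝ)) (1 / 2)).indicator (1 : ℝ → ℝ) (sc T t n)) (Icc 0 (T + 1)) := by
    intro n h hh
    refine Integrable.mono' (hh.norm.continuousOn.integrableOn_compact isCompact_Icc) ?_
      (Eventually.of_forall fun t => ?_)
    · exact (hh.measurable.mul ((measurable_one.indicator measurableSet_Icc).comp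
        (Pool.Agent.K4H58.KL.sc_meas T n))).aestronglyMeasurable
    · rw [norm_mul]
      have h2 : ‖(Icc (-(1 / 2 : ℝ)) (1 / 2)).indicator (1 : ℝ → ℝ) (sc T t n)‖ ≤ 1 := by
        by_cases h3 : sc T t n ∈ Icc (-(1 / 2 : ℝ)) (1 / 2)
        · rw [indicator_of_mem h3]; simp
        · rw [indicator_of_notMem h3]; simp
      exact mul_le_of_le_one_right (norm_nonneg _) h2
  have hsum : ∀ h : ℝ → ℝ, Continuous h → ∑ n ∈ Finset.Icc 1 (NZ T), ((Fb T x y n).card : ℝ) *
      (κ T * ∫ t in (ord n - 1 / 2 / κ T)..(ord n + 1 / 2 / κ T), h t) =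
      κ T * ∫ t in Icc 0 (T + 1), h t * Gt T x y t := by
    intro h hh
    have h1 : ∀ t, h t * Gt T x y t = ∑ n ∈ Finset.Icc 1 (NZ T), ((Fb T x y n).card : ℝ) *
        (h t * (Icc (-(1 / 2 : ℝ)) (1 / 2)).indicator (1 : ℝ → ℝ) (sc T t n)) := by
      intro t
      unfold Gt
      rw [Finset.mul_sum]
      exact Finset.sum_congr rfl fun n _ => by ring
    simp_rw [h1]
    rw [integral_finsetSum _ fun n _ => (hI1 n h hh).const_mul _, Finset.mul_sum]
    refine Finset.sum_congr rfl fun n hn => ?_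
    rw [integral_const_mul, ← hint n hn]
    ring
  have hWi := fun p : ℕ => Win_pow_integrable hT (R + 1) p
  have hGm := Gt_meas T x y
  have hG2 : ∀ t, Gt T x y t ^ 2 ≤ ((Win (R + 1) T t).card : ℝ) ^ (2 * m + 1 + 1) := by
    intro t
    calc Gt T x y t ^ 2 ≤ (((Win (R + 1) T t).card : ℝ) ^ (m + 1)) ^ 2 :=
          pow_le_pow_left₀ (Gt_nonneg T x y t) (Gt_le hxy t) 2
      _ = _ := by rw [← pow_mul]; congr 1; ring
  have hG2i : Integrable fun t => Gt T x y t ^ 2 := by
    refine (hWi (2 * m + 1)).mono' (hGm.pow_const 2).aestronglyMeasurable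
      (Eventually.of_forall fun t => ?_)
    rw [Real.norm_of_nonneg (sq_nonneg _)]
    exact hG2 t
  constructor
  · have h1 : ∀ n ∈ Finset.Icc 1 (NZ T), ((Fb T x y n).card : ℝ) *
        (∑ l ∈ Finset.Icc 1 (NZ T), WJ J (sc T (ord n) l) - cc J) = ((Fb T x y n).card : ℝ) *
        (κ T * ∫ t in (ord n - 1 / 2 / κ T)..(ord n + 1 / 2 / κ T), (SJ J T t - cc J)) := by
      intro n _
      rw [sum_WJ J hT, intervalIntegral.integral_sub (hSc.intervalIntegrable _ _)
        intervalIntegrable_const, intervalIntegral.integral_const, smul_eq_mul]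
      field_simp
      ring
    rw [Finset.sum_congr rfl h1, hsum (fun t => SJ J T t - cc J) (hSc.sub continuous_const), abs_mul,
      abs_of_pos hk]
    have h2 : |∫ t in Icc 0 (T + 1), (SJ J T t - cc J) * Gt T x y t| ≤
        ∫ t in Icc 0 (T + 1), ((SJ J T t - cc J) ^ 2 / (2 * A) + A / 2 * Gt T x y t ^ 2) := by
      refine (abs_integral_le_integral_abs).trans ?_
      refine setIntegral_mono_on ?_ ?_ measurableSet_Icc fun t _ => ?_
      · have h3 : IntegrableOn (fun t => (SJ J T t - cc J) * Gt T x y t) (Icc 0 (T + 1)) := by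
          have h4 : ∀ t, (SJ J T t - cc J) * Gt T x y t = ∑ n ∈ Finset.Icc 1 (NZ T),
              ((Fb T x y n).card : ℝ) * ((SJ J T t - cc J) *
                (Icc (-(1 / 2 : ℝ)) (1 / 2)).indicator (1 : ℝ → ℝ) (sc T t n)) := by
            intro t
            unfold Gt
            rw [Finset.mul_sum]
            exact Finset.sum_congr rfl fun n _ => by ring
          simp_rw [h4]
          exact integrable_finsetSum _ fun n _ =>
            (hI1 n (fun t => SJ J T t - cc J) (hSc.sub continuous_const)).const_mul _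
        exact h3.abs
      · refine Integrable.add ?_ (hG2i.integrableOn.const_mul _)
        exact ((((hSc.sub continuous_const).pow 2).div_const _).continuousOn.integrableOn_compact
          isCompact_Icc)
      · obtain ⟨a, ha⟩ : ∃ a, a = |SJ J T t - cc J| := ⟨_, rfl⟩
        have hg := Gt_nonneg T x y t
        rw [abs_mul, abs_of_nonneg hg, ← sq_abs (SJ J T t - cc J), ← ha]
        have h4 : 0 ≤ (a - A * Gt T x y t) ^ 2 / (2 * A) := by positivity
        have h5 : (a - A * Gt T x y t) ^ 2 / (2 * A) = a ^ 2 / (2 * A) + A / 2 * Gt T x y t ^ 2 -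
            a * Gt T x y t := by
          field_simp
          ring
        linarith
    have h3 : ∫ t in Icc 0 (T + 1), ((SJ J T t - cc J) ^ 2 / (2 * A) + A / 2 * Gt T x y t ^ 2) ≤
        A * ((1 + C2) * T) := by
      have hq : IntegrableOn (fun t => (SJ J T t - cc J) ^ 2 / (2 * A)) (Icc 0 (T + 1)) :=
        (((hSc.sub continuous_const).pow 2).div_const _).continuousOn.integrableOn_compact
          isCompact_Icc
      rw [integral_add hq (hG2i.integrableOn.const_mul _), integral_div, integral_const_mul]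
      have h4 : ∫ t in Icc 0 (T + 1), (SJ J T t - cc J) ^ 2 ≤ A ^ 2 * T := by
        rw [integral_Icc_eq_integral_Ioc, ← intervalIntegral.integral_of_le (by linarith)]
        exact hms
      have h5 : ∫ t in Icc 0 (T + 1), Gt T x y t ^ 2 ≤ C2 * T := by
        calc ∫ t in Icc 0 (T + 1), Gt T x y t ^ 2 ≤ ∫ t, Gt T x y t ^ 2 :=
              setIntegral_le_integral hG2i (Eventually.of_forall fun t => sq_nonneg _)
          _ ≤ ∫ t, ((Win (R + 1) T t).card : ℝ) ^ (2 * m + 1 + 1) :=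
              integral_mono hG2i (hWi (2 * m + 1)) hG2
          _ ≤ C2 * T := k2
      calc (∫ t in Icc 0 (T + 1), (SJ J T t - cc J) ^ 2) / (2 * A) +
            A / 2 * ∫ t in Icc 0 (T + 1), Gt T x y t ^ 2 ≤ A ^ 2 * T / (2 * A) + A / 2 * (C2 * T) := by
            gcongr
        _ = A * ((1 + C2) * T) / 2 := by field_simp
        _ ≤ A * ((1 + C2) * T) := by
            have : 0 ≤ A * ((1 + C2) * T) := by positivity
            linarith
    calc κ T * |∫ t in Icc 0 (T + 1), (SJ J T t - cc J) * Gt T x y t| ≤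
        Real.log T * (A * ((1 + C2) * T)) := by
          have := h2.trans h3
          gcongr
      _ = (1 + C2) * A * (T * Real.log T) := by ring
      _ ≤ _ := by
          gcongr
          exact le_max_right _ _
  · have h1 := hsum (fun _ => 1) continuous_const
    have h2 : (Nk T x y : ℝ) = κ T * ∫ t in Icc 0 (T + 1), (1 : ℝ) * Gt T x y t := by
      rw [← h1, Nk_fib]
      push_cast
      refine Finset.sum_congr rfl fun n _ => ?_
      rw [intervalIntegral.integral_const, smul_eq_mul, mul_one]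
      field_simp
      ring
    rw [h2]
    simp only [one_mul]
    have hGi : Integrable fun t => Gt T x y t := by
      refine (hWi m).mono' hGm.aestronglyMeasurable (Eventually.of_forall fun t => ?_)
      rw [Real.norm_of_nonneg (Gt_nonneg T x y t)]
      exact Gt_le hxy t
    have h3 : ∫ t in Icc 0 (T + 1), Gt T x y t ≤ C1 * T := by
      calc ∫ t in Icc 0 (T + 1), Gt T x y t ≤ ∫ t, Gt T x y t :=
            setIntegral_le_integral hGi (Eventually.of_forall fun t => Gt_nonneg T x y t)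
        _ ≤ ∫ t, ((Win (R + 1) T t).card : ℝ) ^ (m + 1) :=
            integral_mono hGi (hWi m) (Gt_le hxy)
        _ ≤ C1 * T := k1
    calc κ T * ∫ t in Icc 0 (T + 1), Gt T x y t ≤ Real.log T * (C1 * T) :=
          mul_le_mul hkL h3 (setIntegral_nonneg measurableSet_Icc fun t _ => Gt_nonneg T x y t) hL.le
      _ = C1 * (T * Real.log T) := by ring
      _ ≤ _ := by
          gcongr
          exact le_max_left _ _

/-- the sum over the zeros outside the tuple -/
def Scr {m : ℕ} (J : ℕ) (T : ℝ) (x y : Fin m → ℝ) : ℝ :=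
  ∑ n ∈ Finset.Icc 1 (NZ T), ∑ f ∈ Fb T x y n,
    ∑ l ∈ Finset.Icc 1 (NZ T) \ insert n (Finset.univ.image f), WJ J (sc T (ord n) l)

/-- removal of the zeros of the tuple -/
lemma Scr_near {m : ℕ} (J : ℕ) (hJ : 1 ≤ J) {T R : ℝ} (hR : 0 ≤ R) {x y : Fin m → ℝ}
    (hxy : ∀ i, -R ≤ x i ∧ y i ≤ R) :
    |Scr J T x y - (cc J - (m + 1)) * Nk T x y| ≤ |∑ n ∈ Finset.Icc 1 (NZ T), ((Fb T x y n).card : ℝ) *
        (∑ l ∈ Finset.Icc 1 (NZ T), WJ J (sc T (ord n) l) - cc J)| +
      (m + 1) * (Real.pi ^ 2 * (R + 1) ^ 2 / (9 * J)) * Nk T x y := by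
  classical
  obtain ⟨η, hη⟩ : ∃ η : ℝ, η = Real.pi ^ 2 * (R + 1) ^ 2 / (9 * J) := ⟨_, rfl⟩
  have hη0 : 0 ≤ η := by rw [hη]; positivity
  rw [← hη]
  -- one tuple
  have h1 : ∀ n ∈ Finset.Icc 1 (NZ T), ∀ f ∈ Fb T x y n,
      |∑ l ∈ Finset.Icc 1 (NZ T) \ insert n (Finset.univ.image f), WJ J (sc T (ord n) l) -
        (∑ l ∈ Finset.Icc 1 (NZ T), WJ J (sc T (ord n) l) - (m + 1))| ≤ (m + 1) * η := by
    intro n hn f hf
    rw [mem_Fb] at hf
    have hfC : ∀ i, f i ∈ Finset.Icc 1 (NZ T) ∧ f i ≠ n ∧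
        (ord (f i) - ord n) * (Real.log T / (2 * Real.pi)) ∈ Icc (x i) (y i) := by
      intro i
      have := hf.1 i
      unfold Cs at this
      rw [Finset.mem_filter] at this
      exact this
    have hsub : insert n (Finset.univ.image f) ⊆ Finset.Icc 1 (NZ T) := by
      intro l hl
      rw [Finset.mem_insert, Finset.mem_image] at hl
      rcases hl with rfl | ⟨i, -, rfl⟩
      · exact hn
      · exact (hfC i).1
    have hnot : n ∉ Finset.univ.image f := by
      rw [Finset.mem_image]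
      rintro ⟨i, -, hi⟩
      exact (hfC i).2.1 hi
    have hcard : (insert n (Finset.univ.image f)).card = m + 1 := by
      rw [Finset.card_insert_of_notMem hnot, Finset.card_image_of_injective _ hf.2, Finset.card_univ,
        Fintype.card_fin]
    have h2 := Finset.sum_sdiff hsub (f := fun l => WJ J (sc T (ord n) l))
    have h3 : ∀ l ∈ insert n (Finset.univ.image f), |1 - WJ J (sc T (ord n) l)| ≤ η := by
      intro l hl
      rw [abs_of_nonneg (sub_nonneg.2 (WJ_le_one J hJ _)), hη]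
      refine one_sub_WJ J hJ ?_
      rw [Finset.mem_insert, Finset.mem_image] at hl
      rcases hl with rfl | ⟨i, -, rfl⟩
      · unfold Pool.Agent.K4H58.KL.sc
        simpa using hR
      · have h4 := (hfC i).2.2
        unfold Pool.Agent.K4H58.KL.sc
        rw [abs_le]
        constructor <;> linarith [h4.1, h4.2, (hxy i).1, (hxy i).2]
    have h4 : ∑ l ∈ Finset.Icc 1 (NZ T) \ insert n (Finset.univ.image f), WJ J (sc T (ord n) l) -
        (∑ l ∈ Finset.Icc 1 (NZ T), WJ J (sc T (ord n) l) - (m + 1)) =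
        ∑ l ∈ insert n (Finset.univ.image f), (1 - WJ J (sc T (ord n) l)) := by
      rw [Finset.sum_sub_distrib, Finset.sum_const, hcard, nsmul_eq_mul, ← h2]
      push_cast
      ring
    rw [h4]
    refine (Finset.abs_sum_le_sum_abs _ _).trans ((Finset.sum_le_sum h3).trans (le_of_eq ?_))
    rw [Finset.sum_const, hcard, nsmul_eq_mul]
    push_cast
    rfl
  have h5 : Scr J T x y - (cc J - (m + 1)) * Nk T x y =
      (∑ n ∈ Finset.Icc 1 (NZ T), ((Fb T x y n).card : ℝ) *
        (∑ l ∈ Finset.Icc 1 (NZ T), WJ J (sc T (ord n) l) - cc J)) +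
      ∑ n ∈ Finset.Icc 1 (NZ T), ∑ f ∈ Fb T x y n,
        (∑ l ∈ Finset.Icc 1 (NZ T) \ insert n (Finset.univ.image f), WJ J (sc T (ord n) l) -
        (∑ l ∈ Finset.Icc 1 (NZ T), WJ J (sc T (ord n) l) - (m + 1))) := by
    unfold Scr
    rw [Nk_fib]
    push_cast
    rw [Finset.mul_sum, ← Finset.sum_sub_distrib, ← Finset.sum_add_distrib]
    refine Finset.sum_congr rfl fun n _ => ?_
    rw [Finset.sum_sub_distrib, Finset.sum_const, nsmul_eq_mul]
    ring
  rw [h5]
  refine (abs_add_le _ _).trans (add_le_add le_rfl ?_)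
  calc |∑ n ∈ Finset.Icc 1 (NZ T), ∑ f ∈ Fb T x y n,
        (∑ l ∈ Finset.Icc 1 (NZ T) \ insert n (Finset.univ.image f), WJ J (sc T (ord n) l) -
        (∑ l ∈ Finset.Icc 1 (NZ T), WJ J (sc T (ord n) l) - (m + 1)))| ≤
      ∑ n ∈ Finset.Icc 1 (NZ T), ∑ f ∈ Fb T x y n, (m + 1) * η := by
        refine (Finset.abs_sum_le_sum_abs _ _).trans (Finset.sum_le_sum fun n hn => ?_)
        exact (Finset.abs_sum_le_sum_abs _ _).trans (Finset.sum_le_sum fun f hf => h1 n hn f hf)
    _ = _ := by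
        simp_rw [Finset.sum_const, nsmul_eq_mul]
        rw [← Finset.sum_mul, Nk_fib]
        push_cast
        ring

end

end Pool.Agent.K4H58.SC
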